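import Pool.Agent.X17.BInv.Gamma

set_option autoImplicit false

/-!
# Integrality and the final statements
-/

namespace Pool.Agent.X17.BInv

open Finset PowerSeries

theorem coeff_one_add_pow (r k : ℕ) : coeff k ((1 + X : ℚ⟦X⟧) ^ r) = (r.choose k : ℚ) := by
  have h : ((1 + X : ℚ⟦X⟧) ^ r) = (((1 + Polynomial.X : Polynomial ℚ) ^ r : Polynomial ℚ) : ℚ⟦X⟧) := by
    simp
  rw [h, Polynomial.coeff_coe, Polynomial.coeff_one_add_X_pow]

theorem coeff_e (n i k : ℕ) : coeff k (e n i) =
    if i ≤ k then ((n - 2 * i).choose (k - i) : ℚ) else 0 := by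
  rw [e, coeff_X_pow_mul', coeff_one_add_pow]

theorem gam_int (n : ℕ) : ∀ i, ∃ z : ℤ, gam n i = z := by
  intro i
  by_cases hi : i ≤ n
  · induction i using Nat.strong_induction_on with
    | _ i ih =>
      have h1 : coeff i (J n) = ((∑ w ∈ Inv n, if i = des true w then 1 else 0 : ℤ) : ℚ) := by
        rw [J_eq true, map_sum]
        push_cast
        refine sum_congr rfl fun w _ => ?_
        rw [coeff_X_pow]
      have h2 : coeff i (J n) = gam n i + ∑ k ∈ range i, gam n k * ((n - 2 * k).choose (i - k) : ℚ) := by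
        rw [J_gamma, map_sum]
        have h3 : ∀ k ∈ range (n + 1), coeff i (C (gam n k) * e n k) =
            if k ≤ i then gam n k * ((n - 2 * k).choose (i - k) : ℚ) else 0 := by
          intro k _
          rw [coeff_C_mul, coeff_e]
          split_ifs <;> simp
        rw [sum_congr rfl h3, ← sum_filter]
        have h4 : (range (n + 1)).filter (fun k => k ≤ i) = range (i + 1) := by
          ext k
          rw [mem_filter, mem_range, mem_range]
          omega
        rw [h4, sum_range_succ, Nat.sub_self, Nat.choose_zero_right]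
        push_cast
        ring
      choose! z hz using ih
      refine ⟨(∑ w ∈ Inv n, if i = des true w then 1 else 0) -
        ∑ k ∈ range i, z k * ((n - 2 * k).choose (i - k) : ℤ), ?_⟩
      have h5 : ∑ k ∈ range i, gam n k * ((n - 2 * k).choose (i - k) : ℚ) =
          ((∑ k ∈ range i, z k * ((n - 2 * k).choose (i - k) : ℤ) : ℤ) : ℚ) := by
        push_cast
        refine sum_congr rfl fun k hk => ?_
        rw [mem_range] at hk
        rw [hz k hk (by omega)]
      rw [h5] at h2
      rw [h2] at h1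
      push_cast at h1 ⊢
      linarith
  · exact ⟨0, by rw [gam_support _ _ (by omega)]; simp⟩

theorem gam_nat (n : ℕ) : ∃ γ : ℕ → ℕ, ∀ i, gam n i = γ i := by
  choose z hz using gam_int n
  refine ⟨fun i => (z i).toNat, fun i => ?_⟩
  have h1 := gam_nonneg n i
  rw [hz i] at h1 ⊢
  have h2 : 0 ≤ z i := by exact_mod_cast h1
  have h3 : ((z i).toNat : ℤ) = z i := Int.toNat_of_nonneg h2
  exact_mod_cast h3.symm

/-- integer polynomials are determined by their rational power series -/
theorem poly_ext {p q : Polynomial ℤ}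
    (h : ((p.map (Int.castRingHom ℚ) : Polynomial ℚ) : ℚ⟦X⟧) =
      ((q.map (Int.castRingHom ℚ) : Polynomial ℚ) : ℚ⟦X⟧)) : p = q :=
  Polynomial.map_injective (Int.castRingHom ℚ) (RingHom.injective_int _)
    (Polynomial.coe_injective ℚ h)

theorem coe_sum_inv (s : Bool) (n : ℕ) :
    (((∑ w ∈ Inv n, (Polynomial.X : Polynomial ℤ) ^ (des s w)).map (Int.castRingHom ℚ) :
      Polynomial ℚ) : ℚ⟦X⟧) = J n := by
  rw [J_eq s, Polynomial.map_sum]
  have h : ∀ (t : Finset (W n)) (f : W n → Polynomial ℚ),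
      ((∑ w ∈ t, f w : Polynomial ℚ) : ℚ⟦X⟧) = ∑ w ∈ t, (f w : ℚ⟦X⟧) := by
    intro t f
    exact map_sum (Polynomial.coeToPowerSeries.ringHom : Polynomial ℚ →+* ℚ⟦X⟧) f t
  rw [h]
  refine sum_congr rfl fun w _ => ?_
  simp

/-- the descent polynomial is gamma-positive -/
theorem gamma_positive (s : Bool) (n : ℕ) : ∃ γ : ℕ → ℕ,
    ∑ w ∈ Inv n, (Polynomial.X : Polynomial ℤ) ^ (des s w) =
      ∑ i ∈ range (n / 2 + 1), Polynomial.C (γ i : ℤ) * Polynomial.X ^ i *
        (1 + Polynomial.X) ^ (n - 2 * i) := by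
  obtain ⟨γ, hγ⟩ := gam_nat n
  refine ⟨γ, poly_ext ?_⟩
  rw [coe_sum_inv, J_gamma, Polynomial.map_sum]
  have h : ∀ (t : Finset ℕ) (f : ℕ → Polynomial ℚ),
      ((∑ w ∈ t, f w : Polynomial ℚ) : ℚ⟦X⟧) = ∑ w ∈ t, (f w : ℚ⟦X⟧) := by
    intro t f
    exact map_sum (Polynomial.coeToPowerSeries.ringHom : Polynomial ℚ →+* ℚ⟦X⟧) f t
  rw [h]
  have h2 : ∑ i ∈ range (n + 1), C (gam n i) * e n i =
      ∑ i ∈ range (n / 2 + 1), C (gam n i) * e n i := by
    symm
    refine sum_subset ?_ ?_
    · intro i hi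
      rw [mem_range] at hi ⊢
      omega
    · intro i _ hi
      rw [mem_range, not_lt] at hi
      rw [gam_support n i (by omega)]
      simp
  rw [h2]
  refine sum_congr rfl fun i _ => ?_
  have hc : (((γ i : ℕ) : Polynomial ℚ) : ℚ⟦X⟧) = ((γ i : ℕ) : ℚ⟦X⟧) :=
    map_natCast (Polynomial.coeToPowerSeries.ringHom : Polynomial ℚ →+* ℚ⟦X⟧) (γ i)
  rw [hγ i, e, C_natCast]
  simp [mul_assoc, hc]

/-- the two descent statistics are equidistributed -/
theorem equidistributed (n : ℕ) :
    ∑ w ∈ Inv n, (Polynomial.X : Polynomial ℤ) ^ (des true w) =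
      ∑ w ∈ Inv n, (Polynomial.X : Polynomial ℤ) ^ (des false w) := by
  refine poly_ext ?_
  rw [coe_sum_inv, coe_sum_inv]

end Pool.Agent.X17.BInv
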