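import Pool.Agent.X17.BInv.Rank

set_option autoImplicit false

/-!
# Involutions of `B_n` with compatible sequences and symmetric matrices
-/

namespace Pool.Agent.X17.BInv

open Finset

/-- signed permutations: `w i = (± (w.1 i + 1))`, with minus sign when `w.2 i = true` -/
abbrev W (n : ℕ) := Equiv.Perm (Fin n) × (Fin n → Bool)

/-- involutions -/
def Inv (n : ℕ) : Finset (W n) :=
  (univ : Finset (W n)).filter fun w => ∀ i : Fin n, w.1 (w.1 i) = i ∧ w.2 (w.1 i) = w.2 i

/-- An integer which compares the values of a signed permutation in the usual order (`s = true`) or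
in the order `-1 < -2 < ⋯ < 1 < 2 < ⋯` (`s = false`). -/
def val {n : ℕ} (s : Bool) (w : W n) (i : Fin n) : ℤ :=
  if w.2 i = true then (if s = true then -((w.1 i : ℤ) + 1) else (w.1 i : ℤ) - n)
  else (w.1 i : ℤ) + 1

theorem val_inj {n : ℕ} (s : Bool) (w : W n) : Function.Injective (val s w) := by
  intro i j h
  unfold val at h
  have hi := (w.1 i).2
  have hj := (w.1 j).2
  apply w.1.injective
  apply Fin.ext
  split_ifs at h <;> omega

theorem val_neg_iff {n : ℕ} (s : Bool) (w : W n) (i : Fin n) : val s w i < 0 ↔ w.2 i = true := by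
  unfold val
  have hi := (w.1 i).2
  cases w.2 i <;> cases s <;> simp
  all_goals omega

theorem val_pos_iff {n : ℕ} (s : Bool) (w : W n) (i : Fin n) : 0 < val s w i ↔ w.2 i = false := by
  unfold val
  have hi := (w.1 i).2
  cases w.2 i <;> cases s <;> simp <;> omega

/-- compatible sequences -/
def Compat {n : ℕ} (s : Bool) (w : W n) (f : Fin n → ℕ) : Prop :=
  Monotone f ∧ (∀ i, f i = 0 → w.2 i = false) ∧ ∀ i j, i < j → f i = f j → val s w i < val s w j

/-- descent positions -/
def Dw {n : ℕ} (s : Bool) (w : W n) (j : ℕ) : Bool :=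
  decide (∃ hj : j < n, (j = 0 ∧ w.2 ⟨j, hj⟩ = true) ∨
    ∃ i : Fin n, i.val + 1 = j ∧ val s w ⟨j, hj⟩ < val s w i)

theorem Dw_iff {n : ℕ} (s : Bool) (w : W n) (j : Fin n) :
    Dw s w j = true ↔ (j.val = 0 ∧ w.2 j = true) ∨
      ∃ i : Fin n, i.val + 1 = j.val ∧ val s w j < val s w i := by
  rw [Dw, decide_eq_true_iff]
  constructor
  · rintro ⟨_, h⟩; exact h
  · intro h; exact ⟨j.2, h⟩

/-- the descent number -/
def des {n : ℕ} (s : Bool) (w : W n) : ℕ :=
  (univ.filter (fun j : Fin n => j.val = 0 ∧ w.2 j = true)).card +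
    (univ.filter (fun p : Fin n × Fin n => p.2.val = p.1.val + 1 ∧
      val s w p.2 < val s w p.1)).card

theorem dcard_Dw {n : ℕ} (s : Bool) (w : W n) : dcard (Dw s w) n = des s w := by
  rw [dcard, ← Fin.sum_univ_eq_sum_range (fun j => (Dw s w j).toNat), des]
  have h1 : ∀ j : Fin n, (Dw s w j).toNat = (if j.val = 0 ∧ w.2 j = true then 1 else 0) +
      (if ∃ i : Fin n, i.val + 1 = j.val ∧ val s w j < val s w i then 1 else 0) := by
    intro j
    have h := Dw_iff s w j
    by_cases h2 : j.val = 0 ∧ w.2 j = true
    · rw [if_pos h2, if_neg, h.2 (Or.inl h2)]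
      · rfl
      · rintro ⟨i, hi, _⟩
        omega
    · rw [if_neg h2]
      by_cases h3 : ∃ i : Fin n, i.val + 1 = j.val ∧ val s w j < val s w i
      · rw [if_pos h3, h.2 (Or.inr h3)]
        rfl
      · rw [if_neg h3]
        have : Dw s w j = false := by
          rw [Bool.eq_false_iff]
          intro h4
          rcases h.1 h4 with h5 | h5
          · exact h2 h5
          · exact h3 h5
        rw [this]
        rfl
  rw [sum_congr rfl fun j _ => h1 j, sum_add_distrib, ← card_filter, ← card_filter]
  congr 1
  symm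
  refine card_bij (fun p _ => p.2) ?_ ?_ ?_
  · rintro ⟨i, j⟩ hp
    rw [mem_filter] at hp ⊢
    exact ⟨mem_univ _, i, hp.2.1.symm, hp.2.2⟩
  · rintro ⟨i, j⟩ hp ⟨i', j'⟩ hp' h
    rw [mem_filter] at hp hp'
    simp only at h hp hp'
    have h4 := hp.2.1
    have h5 := hp'.2.1
    subst h
    have : i = i' := Fin.ext (by omega)
    rw [this]
  · intro j hj
    rw [mem_filter] at hj
    obtain ⟨_, i, hi, hlt⟩ := hj
    exact ⟨(i, j), by rw [mem_filter]; exact ⟨mem_univ _, hi.symm, hlt⟩, rfl⟩

theorem PD_iff_Compat {n : ℕ} (s : Bool) (w : W n) (f : Fin n → ℕ) :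
    PD (Dw s w) n f ↔ Compat s w f := by
  constructor
  · intro h
    have hmono : Monotone f := by
      intro i j hij
      exact h.mono (j.val - i.val) i j (by have : i.val ≤ j.val := hij; omega)
    have hstep : ∀ (d : ℕ) (i j : Fin n), i.val + d + 1 = j.val → f i = f j →
        val s w i < val s w j := by
      intro d
      induction d with
      | zero =>
        intro i j hij hf
        by_contra hc
        have hne : val s w i ≠ val s w j := fun h => by
          have := val_inj s w h
          subst this
          omega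
        have hD : Dw s w j = true := (Dw_iff s w j).2 (Or.inr ⟨i, by omega, by omega⟩)
        have := h.1 i j (by omega)
        rw [hD] at this
        simp at this
        omega
      | succ d ih =>
        intro i j hij hf
        have hlt : i.val + d + 1 < n := by have := j.2; omega
        have h1 : f i ≤ f ⟨i.val + d + 1, hlt⟩ := hmono (by rw [Fin.le_def]; simp only; omega)
        have h2 : f ⟨i.val + d + 1, hlt⟩ ≤ f j := hmono (by rw [Fin.le_def]; simp only; omega)
        have h3 := ih i ⟨i.val + d + 1, hlt⟩ rfl (by omega)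
        have h4 : val s w ⟨i.val + d + 1, hlt⟩ < val s w j := by
          by_contra hc
          have hne : val s w ⟨i.val + d + 1, hlt⟩ ≠ val s w j := fun h => by
            have := congrArg Fin.val (val_inj s w h)
            simp only at this
            omega
          have hD : Dw s w j = true := (Dw_iff s w j).2
            (Or.inr ⟨⟨i.val + d + 1, hlt⟩, by simp only; omega, by omega⟩)
          have := h.1 ⟨i.val + d + 1, hlt⟩ j (by simp only; omega)
          rw [hD] at this
          simp at this
          omega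
        exact h3.trans h4
    refine ⟨hmono, ?_, ?_⟩
    · intro j hj
      have hn : 0 < n := j.pos
      have h0 : f ⟨0, hn⟩ = 0 := by
        have : f ⟨0, hn⟩ ≤ f j := hmono (Fin.le_def.2 (Nat.zero_le _))
        omega
      have h1 := h.2 ⟨0, hn⟩ rfl
      have hw0 : w.2 ⟨0, hn⟩ = false := by
        rw [Bool.eq_false_iff]
        intro hw
        have hD : Dw s w (⟨0, hn⟩ : Fin n) = true := (Dw_iff s w ⟨0, hn⟩).2 (Or.inl ⟨rfl, hw⟩)
        simp only at hD h1
        rw [hD, h0] at h1
        simp at h1
      rcases Nat.eq_zero_or_pos j.val with hz | hpos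
      · have : j = ⟨0, hn⟩ := Fin.ext hz
        rw [this]; exact hw0
      · have h3 := hstep (j.val - 1) ⟨0, hn⟩ j (by simp only; omega) (by omega)
        have h4 := (val_pos_iff s w ⟨0, hn⟩).2 hw0
        exact (val_pos_iff s w j).1 (by omega)
    · intro i j hij hf
      exact hstep (j.val - i.val - 1) i j (by have : i.val < j.val := hij; omega) hf
  · rintro ⟨hmono, hzero, hstr⟩
    refine ⟨?_, ?_⟩
    · intro i j hij
      have hlt : i < j := Fin.lt_def.2 (by omega)
      have h1 : f i ≤ f j := hmono hlt.le
      rcases hD : Dw s w j with _ | _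
      · simpa using h1
      · have h2 := (Dw_iff s w j).1 hD
        rcases h2 with h2 | ⟨i', hi', hv⟩
        · omega
        · have : i' = i := Fin.ext (by omega)
          subst this
          have hne : f i' ≠ f j := fun h => by
            have := hstr i' j hlt h
            omega
          simp only [Bool.toNat_true]
          omega
    · intro j hj
      rcases hD : Dw s w j with _ | _
      · simp
      · have h2 := (Dw_iff s w j).1 hD
        rcases h2 with h2 | ⟨i', hi', hv⟩
        · have hne : f j ≠ 0 := fun h => by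
            have := hzero j h
            rw [h2.2] at this
            exact Bool.noConfusion this
          simp only [Bool.toNat_true]
          omega
        · omega

/-! ### classes -/

/-- classes `((a, b), e)` -/
abbrev Q := (ℕ × ℕ) × Bool

/-- transposition of a class -/
def tau (q : Q) : Q := ((q.1.2, q.1.1), q.2)

theorem tau_tau (q : Q) : tau (tau q) = q := rfl

/-- allowed classes -/
def S (m : ℕ) : Finset Q :=
  ((range (m + 1) ×ˢ range (m + 1)) ×ˢ {false}) ∪ ((Icc 1 m ×ˢ Icc 1 m) ×ˢ {true})

theorem mem_S {m : ℕ} {q : Q} :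
    q ∈ S m ↔ q.1.1 ≤ m ∧ q.1.2 ≤ m ∧ (q.2 = true → 1 ≤ q.1.1 ∧ 1 ≤ q.1.2) := by
  obtain ⟨⟨a, b⟩, e⟩ := q
  cases e <;> simp [S] <;> omega

theorem tau_mem_S {m : ℕ} {q : Q} (h : q ∈ S m) : tau q ∈ S m := by
  rw [mem_S] at h ⊢
  simp only [tau]
  exact ⟨h.2.1, h.1, fun he => ⟨(h.2.2 he).2, (h.2.2 he).1⟩⟩

/-- key of a class in the sorting order -/
def key (s : Bool) (q : Q) : ℕ ×ₗ (Bool ×ₗ ℤ) :=
  toLex (q.1.1, toLex (!q.2, if q.2 = true ∧ s = true then -(q.1.2 : ℤ) else (q.1.2 : ℤ)))

theorem key_inj (s : Bool) : Function.Injective (key s) := by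
  rintro ⟨⟨a, b⟩, e⟩ ⟨⟨a', b'⟩, e'⟩ h
  have h1 := congrArg (fun x => (ofLex x).1) h
  have h2 := congrArg (fun x => (ofLex (ofLex x).2).1) h
  have h3 := congrArg (fun x => (ofLex (ofLex x).2).2) h
  simp only [key, ofLex_toLex] at h1 h2 h3
  have h2' : e = e' := by simpa using h2
  subst h1 h2'
  have : b = b' := by
    split_ifs at h3 <;> omega
  rw [this]

theorem key_le (s : Bool) (q q' : Q) : key s q ≤ key s q' ↔
    q.1.1 < q'.1.1 ∨ (q.1.1 = q'.1.1 ∧ ((q.2 = true ∧ q'.2 = false) ∨ (q.2 = q'.2 ∧
      (if q.2 = true ∧ s = true then q'.1.2 ≤ q.1.2 else q.1.2 ≤ q'.1.2)))) := by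
  obtain ⟨⟨a, b⟩, e⟩ := q
  obtain ⟨⟨a', b'⟩, e'⟩ := q'
  rw [key, key, Prod.Lex.toLex_le_toLex, Prod.Lex.toLex_le_toLex]
  cases e <;> cases e' <;> cases s <;> simp

/-- the class of a position -/
def cls {n : ℕ} (w : W n) (f : Fin n → ℕ) (i : Fin n) : Q := ((f i, f (w.1 i)), w.2 i)

theorem cls_apply {n : ℕ} {w : W n} (hw : w ∈ Inv n) (f : Fin n → ℕ) (i : Fin n) :
    cls w f (w.1 i) = tau (cls w f i) := by
  rw [Inv, mem_filter] at hw
  simp only [cls, tau, (hw.2 i).1, (hw.2 i).2]

theorem cls_mono {n : ℕ} {s : Bool} {w : W n} {f : Fin n → ℕ} (h : Compat s w f) :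
    Monotone (key s ∘ cls w f) := by
  intro i j hij
  rcases eq_or_lt_of_le hij with rfl | hlt
  · exact le_rfl
  simp only [Function.comp]
  rw [key_le]
  obtain ⟨hmono, hzero, hstr⟩ := h
  have h1 : f i ≤ f j := hmono hij
  rcases Nat.lt_or_ge (f i) (f j) with h2 | h2
  · left; exact h2
  · right
    have h3 : f i = f j := le_antisymm h1 h2
    refine ⟨h3, ?_⟩
    have h4 := hstr i j hlt h3
    simp only [cls]
    unfold val at h4
    have hbi := (w.1 i).2
    have hbj := (w.1 j).2
    rcases Bool.eq_false_or_eq_true (w.2 i) with hei | hei <;>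
      rcases Bool.eq_false_or_eq_true (w.2 j) with hej | hej <;>
      simp only [hei, hej, if_true, if_false, Bool.false_eq_true, true_and, false_and, and_false,
        false_or, true_or, and_self] at h4 ⊢
    · by_cases hs : s = true
      · simp only [hs, if_true] at h4 ⊢
        exact Or.inr (hmono (Fin.le_def.2 (by omega)))
      · simp only [hs, if_false, Bool.false_eq_true] at h4 ⊢
        exact Or.inr (hmono (Fin.le_def.2 (by omega)))
    · by_cases hs : s = true
      · simp only [hs, if_true] at h4
        omega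
      · simp only [hs, if_false, Bool.false_eq_true] at h4
        omega
    · exact hmono (Fin.le_def.2 (by omega))

/-- two compatible involutions with the same class function are equal -/
theorem rk_apply {n : ℕ} {s : Bool} {w : W n} (hw : w ∈ Inv n) {f : Fin n → ℕ}
    (h : Compat s w f) (i : Fin n) :
    rk (cls w f) (w.1 i) = if w.2 i = true ∧ s = true then
      cnt (cls w f) (cls w f i) - 1 - rk (cls w f) i else rk (cls w f) i := by
  have h1 : rk (cls w f) (w.1 i) =
      (univ.filter fun j => w.1 j < w.1 i ∧ cls w f j = cls w f i).card := by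
    rw [rk]
    symm
    refine card_bij (fun j _ => w.1 j) ?_ ?_ ?_
    · intro j hj
      rw [mem_filter] at hj ⊢
      refine ⟨mem_univ _, hj.2.1, ?_⟩
      rw [cls_apply hw, cls_apply hw, hj.2.2]
    · intro a _ b _ hab
      exact w.1.injective hab
    · intro k hk
      rw [mem_filter] at hk
      have hw' := hw
      rw [Inv, mem_filter] at hw'
      refine ⟨w.1 k, ?_, (hw'.2 k).1⟩
      rw [mem_filter]
      refine ⟨mem_univ _, ?_, ?_⟩
      · rw [(hw'.2 k).1]; exact hk.2.1
      · rw [cls_apply hw, hk.2.2, cls_apply hw, tau_tau]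
  have hcmp : ∀ a b : Fin n, a < b → cls w f a = cls w f b →
      (if w.2 b = true ∧ s = true then w.1 b < w.1 a else w.1 a < w.1 b) := by
    intro a b hab hc
    have e1 : f a = f b := congrArg (fun q : Q => q.1.1) hc
    have e2 : w.2 a = w.2 b := congrArg (fun q : Q => q.2) hc
    have h4 := h.2.2 a b hab e1
    unfold val at h4
    rw [e2] at h4
    rw [Fin.lt_def, Fin.lt_def]
    by_cases he : w.2 b = true <;> by_cases hs : s = true <;>
      simp only [he, hs, if_true, if_false, and_self, and_false, false_and,
        Bool.false_eq_true] at h4 ⊢ <;> omega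
  rw [h1]
  by_cases hb : w.2 i = true ∧ s = true
  · rw [if_pos hb, ← card_gt]
    congr 1
    ext j
    simp only [mem_filter, mem_univ, true_and]
    constructor
    · rintro ⟨h2, h3⟩
      refine ⟨?_, h3⟩
      rcases lt_trichotomy j i with h5 | h5 | h5
      · have := hcmp j i h5 h3
        rw [if_pos hb] at this
        exact absurd (this.trans h2) (lt_irrefl _)
      · subst h5; exact absurd h2 (lt_irrefl _)
      · exact h5
    · rintro ⟨h2, h3⟩
      refine ⟨?_, h3⟩
      have e2 : w.2 j = w.2 i := congrArg (fun q : Q => q.2) h3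
      have := hcmp i j h2 h3.symm
      rw [e2, if_pos hb] at this
      exact this
  · rw [if_neg hb, rk]
    congr 1
    ext j
    simp only [mem_filter, mem_univ, true_and]
    constructor
    · rintro ⟨h2, h3⟩
      refine ⟨?_, h3⟩
      rcases lt_trichotomy j i with h5 | h5 | h5
      · exact h5
      · subst h5; exact absurd h2 (lt_irrefl _)
      · have e2 : w.2 j = w.2 i := congrArg (fun q : Q => q.2) h3
        have := hcmp i j h5 h3.symm
        rw [e2, if_neg hb] at this
        exact absurd (this.trans h2) (lt_irrefl _)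
    · rintro ⟨h2, h3⟩
      refine ⟨?_, h3⟩
      have := hcmp j i h2 h3
      rw [if_neg hb] at this
      exact this

/-- symmetric matrices supported on `T` with total weight `n` -/
def MM (T : Finset Q) (n : ℕ) : Finset (Q → ℕ) :=
  (piAntidiag T n).filter fun M => ∀ q ∈ T, M (tau q) = M q

theorem mem_MM {T : Finset Q} {n : ℕ} {M : Q → ℕ} : M ∈ MM T n ↔
    (∑ q ∈ T, M q = n ∧ ∀ q, M q ≠ 0 → q ∈ T) ∧ ∀ q ∈ T, M (tau q) = M q := by
  rw [MM, mem_filter, mem_piAntidiag]

/-- pairs of an involution and a compatible sequence -/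
noncomputable def GG (s : Bool) (n m : ℕ) : Finset (Σ _ : W n, Fin n → ℕ) :=
  (Inv n).sigma fun w => SD (Dw s w) n m

theorem mem_GG {s : Bool} {n m : ℕ} {x : Σ _ : W n, Fin n → ℕ} :
    x ∈ GG s n m ↔ x.1 ∈ Inv n ∧ (∀ i, x.2 i ≤ m) ∧ Compat s x.1 x.2 := by
  rw [GG, mem_sigma, mem_SD, PD_iff_Compat]

theorem card_GG (s : Bool) (n m : ℕ) :
    (GG s n m).card = ∑ w ∈ Inv n, (m + n - des s w).choose n := by
  rw [GG, card_sigma]
  refine sum_congr rfl fun w _ => ?_
  rw [SD_card, dcard_Dw]

theorem cls_mem_S {s : Bool} {n m : ℕ} {x : Σ _ : W n, Fin n → ℕ} (hx : x ∈ GG s n m)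
    (i : Fin n) : cls x.1 x.2 i ∈ S m := by
  rw [mem_GG] at hx
  obtain ⟨hw, hm, hc⟩ := hx
  rw [Inv, mem_filter] at hw
  rw [mem_S]
  refine ⟨hm i, hm _, fun he => ?_⟩
  simp only [cls] at he ⊢
  constructor
  · by_contra h0
    have := hc.2.1 i (by omega)
    rw [he] at this
    exact Bool.noConfusion this
  · by_contra h0
    have := hc.2.1 (x.1.1 i) (by omega)
    rw [(hw.2 i).2, he] at this
    exact Bool.noConfusion this

theorem cnt_mem_MM {s : Bool} {n m : ℕ} {x : Σ _ : W n, Fin n → ℕ} (hx : x ∈ GG s n m) :
    cnt (cls x.1 x.2) ∈ MM (S m) n := by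
  have hS := cls_mem_S hx
  have hw := (mem_GG.1 hx).1
  rw [mem_MM]
  refine ⟨⟨?_, ?_⟩, ?_⟩
  · have := card_eq_sum_card_fiberwise (s := (univ : Finset (Fin n))) (f := cls x.1 x.2)
      (t := S m) (fun i _ => hS i)
    rw [card_fin] at this
    exact this.symm
  · intro q hq
    rw [cnt, card_ne_zero] at hq
    obtain ⟨i, hi⟩ := hq
    rw [mem_filter] at hi
    rw [← hi.2]
    exact hS i
  · intro q _
    rw [cnt, cnt]
    refine card_bij (fun i _ => x.1.1 i) ?_ ?_ ?_
    · intro i hi
      rw [mem_filter] at hi ⊢
      exact ⟨mem_univ _, by rw [cls_apply hw, hi.2, tau_tau]⟩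
    · intro a _ b _ hab
      exact x.1.1.injective hab
    · intro j hj
      rw [mem_filter] at hj
      have hw' := hw
      rw [Inv, mem_filter] at hw'
      exact ⟨x.1.1 j, by rw [mem_filter]; exact ⟨mem_univ _, by rw [cls_apply hw, hj.2]⟩,
        (hw'.2 j).1⟩

theorem card_GG_eq (s : Bool) (n m : ℕ) : (GG s n m).card = (MM (S m) n).card := by
  refine card_bij (fun x _ => cnt (cls x.1 x.2)) (fun x hx => cnt_mem_MM hx) ?_ ?_
  · rintro ⟨w, f⟩ hx ⟨w', f'⟩ hx' h
    have hp : cls w f = cls w' f' := by
      refine eq_of_cnt (key s) (key_inj s) _ _ (cls_mono (mem_GG.1 hx).2.2)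
        (cls_mono (mem_GG.1 hx').2.2) ?_
      intro q
      exact congrFun h q
    have hf : f = f' := funext fun i => congrArg (fun q : Q => q.1.1) (congrFun hp i)
    have he : w.2 = w'.2 := funext fun i => congrArg (fun q : Q => q.2) (congrFun hp i)
    have hσ : w.1 = w'.1 := by
      refine Equiv.ext fun i => ?_
      refine eq_of_rk (cls w f) ?_ ?_
      · rw [cls_apply (mem_GG.1 hx).1]
        rw [hp, cls_apply (mem_GG.1 hx').1]
      · rw [rk_apply (mem_GG.1 hx).1 (mem_GG.1 hx).2.2]
        rw [hp, rk_apply (mem_GG.1 hx').1 (mem_GG.1 hx').2.2, he]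
    have hw : w = w' := Prod.ext hσ he
    subst hf hw
    rfl
  · intro M hM
    rw [mem_MM] at hM
    obtain ⟨⟨hsum, hsupp⟩, hsym⟩ := hM
    obtain ⟨p, hmono, hcnt⟩ := exists_seq (n := n) (key s) (S m) M hsum hsupp
    have hpS : ∀ i, p i ∈ S m := by
      intro i
      apply hsupp
      rw [← hcnt]
      have := rk_lt p i
      omega
    have hsymm : ∀ i, cnt p (tau (p i)) = cnt p (p i) := fun i => by
      rw [hcnt, hcnt, hsym _ (hpS i)]
    let ρ : Fin n → ℕ := fun i => if (p i).2 = true ∧ s = true then
      cnt p (p i) - 1 - rk p i else rk p i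
    have hρ : ∀ i, ρ i < cnt p (tau (p i)) := by
      intro i
      rw [hsymm]
      have := rk_lt p i
      simp only [ρ]
      split_ifs <;> omega
    choose σ hσ1 hσ2 using fun i => exists_rank p (tau (p i)) (ρ i) (hρ i)
    have hinv : Function.Involutive σ := by
      intro i
      refine eq_of_rk p ?_ ?_
      · rw [hσ1, hσ1, tau_tau]
      · rw [hσ2]
        simp only [ρ]
        rw [hσ1, hsymm, hσ2]
        have := rk_lt p i
        have h2 : (tau (p i)).2 = (p i).2 := rfl
        simp only [ρ, h2]
        split_ifs <;> omega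
    let w : W n := (hinv.toPerm, fun i => (p i).2)
    let f : Fin n → ℕ := fun i => (p i).1.1
    have hcls : cls w f = p := by
      funext i
      have h1 : p (σ i) = tau (p i) := hσ1 i
      have h2 : f (w.1 i) = (p i).1.2 := by
        change (p (σ i)).1.1 = _
        rw [h1]; rfl
      rw [cls, h2]
    have hwI : w ∈ Inv n := by
      rw [Inv, mem_filter]
      refine ⟨mem_univ _, fun i => ⟨hinv i, ?_⟩⟩
      change (p (σ i)).2 = (p i).2
      rw [hσ1]; rfl
    have hfm : Monotone f := by
      intro i j hij
      have := (key_le s _ _).1 (hmono hij)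
      rcases this with h | h
      · exact h.le
      · exact h.1.le
    have hC : Compat s w f := by
      refine ⟨hfm, ?_, ?_⟩
      · intro i hi
        change (p i).2 = false
        rw [Bool.eq_false_iff]
        intro he
        have := (mem_S.1 (hpS i)).2.2 he
        have h0 : (p i).1.1 = 0 := hi
        omega
      · intro i j hij hf
        have hf' : (p i).1.1 = (p j).1.1 := hf
        have hk := (key_le s _ _).1 (hmono hij.le)
        have hfσ : ∀ i, f (σ i) = (p i).1.2 := fun i => by
          change (p (σ i)).1.1 = _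
          rw [hσ1]; rfl
        rcases hk with hk | ⟨_, hk | ⟨he, hk⟩⟩
        · omega
        · have h1 : val s w i < 0 := (val_neg_iff s w i).2 hk.1
          have h2 : 0 < val s w j := (val_pos_iff s w j).2 hk.2
          omega
        · by_cases hb : (p i).2 = true ∧ s = true
          · rw [if_pos hb] at hk
            have hlt : σ j < σ i := by
              rcases Nat.lt_or_ge (p j).1.2 (p i).1.2 with h | h
              · rw [← hfσ, ← hfσ] at h
                by_contra hc
                exact absurd (hfm (not_lt.1 hc)) (not_le.2 h)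
              · have heq : p i = p j := by
                  have e1 : (p i).1.2 = (p j).1.2 := le_antisymm h hk
                  exact Prod.ext (Prod.ext hf' e1) he
                refine lt_of_rk p (by rw [hσ1, hσ1, heq]) ?_
                rw [hσ2, hσ2]
                have h3 := rk_lt_rk p hij heq
                have h4 := rk_lt p j
                have hb' : (p j).2 = true ∧ s = true := by rw [← heq]; exact hb
                simp only [ρ]
                rw [if_pos hb, if_pos hb', heq]
                omega
            have hvi : val s w i = -((σ i : ℤ) + 1) := by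
              unfold val
              rw [if_pos (show w.2 i = true from hb.1), if_pos hb.2]; rfl
            have hvj : val s w j = -((σ j : ℤ) + 1) := by
              unfold val
              rw [if_pos (show w.2 j = true from he.symm.trans hb.1), if_pos hb.2]; rfl
            rw [hvi, hvj]
            have : (σ j).val < (σ i).val := hlt
            omega
          · rw [if_neg hb] at hk
            have hlt : σ i < σ j := by
              rcases Nat.lt_or_ge (p i).1.2 (p j).1.2 with h | h
              · rw [← hfσ, ← hfσ] at h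
                by_contra hc
                exact absurd (hfm (not_lt.1 hc)) (not_le.2 h)
              · have heq : p i = p j := by
                  have e1 : (p i).1.2 = (p j).1.2 := le_antisymm hk h
                  exact Prod.ext (Prod.ext hf' e1) he
                refine lt_of_rk p (by rw [hσ1, hσ1, heq]) ?_
                rw [hσ2, hσ2]
                have h3 := rk_lt_rk p hij heq
                have hb' : ¬ ((p j).2 = true ∧ s = true) := by rw [← heq]; exact hb
                simp only [ρ]
                rw [if_neg hb, if_neg hb']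
                exact h3
            have hlt' : (σ i).val < (σ j).val := hlt
            have hwi : w.1 i = σ i := rfl
            have hwj : w.1 j = σ j := rfl
            have hei : w.2 i = (p i).2 := rfl
            have hej : w.2 j = (p i).2 := he.symm
            unfold val
            rw [hwi, hwj, hei, hej]
            by_cases h1 : (p i).2 = true
            · have h2 : s ≠ true := fun h => hb ⟨h1, h⟩
              rw [if_pos h1, if_pos h1, if_neg h2, if_neg h2]
              omega
            · rw [if_neg h1, if_neg h1]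
              omega
    refine ⟨⟨w, f⟩, mem_GG.2 ⟨hwI, fun i => (mem_S.1 (hpS i)).1, hC⟩, ?_⟩
    change cnt (cls w f) = M
    rw [hcls]
    exact funext hcnt

/-- The basic identity. -/
theorem main_identity (s : Bool) (n m : ℕ) :
    ∑ w ∈ Inv n, (m + n - des s w).choose n = (MM (S m) n).card := by
  rw [← card_GG, card_GG_eq]

end Pool.Agent.X17.BInv
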