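import Mathlib

set_option autoImplicit false

/-!
# Counting weakly increasing sequences with prescribed strict ascents
-/

namespace Pool.Agent.X17.BInv

open Finset

/-- `f` is weakly increasing starting from the virtual value `0`, with a strict increase at each
position of `D`. -/
def PD (D : ℕ → Bool) (n : ℕ) (f : Fin n → ℕ) : Prop :=
  (∀ i j : Fin n, i.val + 1 = j.val → f i + (D j).toNat ≤ f j) ∧
    ∀ j : Fin n, j.val = 0 → (D j).toNat ≤ f j

instance (D : ℕ → Bool) (n : ℕ) (f : Fin n → ℕ) : Decidable (PD D n f) := by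
  unfold PD; infer_instance

/-- sequences bounded by `m` -/
def SD (D : ℕ → Bool) (n m : ℕ) : Finset (Fin n → ℕ) :=
  (Fintype.piFinset fun _ => range (m + 1)).filter (PD D n)

theorem mem_SD {D : ℕ → Bool} {n m : ℕ} {f : Fin n → ℕ} :
    f ∈ SD D n m ↔ (∀ i, f i ≤ m) ∧ PD D n f := by
  rw [SD, mem_filter, Fintype.mem_piFinset]
  constructor
  · rintro ⟨h1, h2⟩
    exact ⟨fun i => by have := h1 i; rw [mem_range] at this; omega, h2⟩
  · rintro ⟨h1, h2⟩
    exact ⟨fun i => by rw [mem_range]; have := h1 i; omega, h2⟩

theorem PD.mono {D : ℕ → Bool} {n : ℕ} {f : Fin n → ℕ} (h : PD D n f) :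
    ∀ (d : ℕ) (i j : Fin n), i.val + d = j.val → f i ≤ f j := by
  intro d
  induction d with
  | zero =>
    intro i j hij
    rw [show i = j from Fin.ext (by omega)]
  | succ d ih =>
    intro i j hij
    have hlt : i.val + d < n := by have := j.2; omega
    have h1 := ih i ⟨i.val + d, hlt⟩ rfl
    have h2 := h.1 ⟨i.val + d, hlt⟩ j (by simp only; omega)
    omega

theorem SD_succ_card (D : ℕ → Bool) (n m : ℕ) :
    (SD D (n + 1) m).card = ∑ u ∈ range (m + 1 - (D n).toNat), (SD D n u).card := by
  have hδ : (D n).toNat ≤ 1 := by cases D n <;> simp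
  rw [← card_sigma]
  refine card_bij' (fun f _ => ⟨f (Fin.last n) - (D n).toNat, fun i => f i.castSucc⟩)
    (fun x _ => Fin.snoc (α := fun _ => ℕ) x.2 (x.1 + (D n).toNat)) ?_ ?_ ?_ ?_
  · intro f hf
    rw [mem_SD] at hf
    obtain ⟨h1, h2⟩ := hf
    have hm := h1 (Fin.last n)
    have hδv : (D n).toNat ≤ f (Fin.last n) := by
      rcases Nat.eq_zero_or_pos n with h0 | hpos
      · subst h0
        exact h2.2 (Fin.last 0) rfl
      · have := h2.1 ⟨n - 1, by omega⟩ (Fin.last n) (by simp; omega)
        simp only [Fin.val_last] at this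
        omega
    rw [mem_sigma, mem_range, mem_SD]
    refine ⟨by simp only; omega, ?_, ?_, ?_⟩
    · intro i
      have hpos : 0 < n := i.pos
      have h3 := h2.1 ⟨n - 1, by omega⟩ (Fin.last n) (by simp; omega)
      have h4 := h2.mono (n - 1 - i.val) i.castSucc ⟨n - 1, by omega⟩ (by
        simp only [Fin.val_castSucc]; have := i.2; omega)
      simp only [Fin.val_last] at h3 ⊢
      omega
    · intro i j hij
      exact h2.1 i.castSucc j.castSucc hij
    · intro j hj
      exact h2.2 j.castSucc hj
  · rintro ⟨u, g⟩ hx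
    rw [mem_sigma, mem_range, mem_SD] at hx
    obtain ⟨h0, h1, h2⟩ := hx
    simp only at h0 h1 h2
    have hs : ∀ i : Fin n, Fin.snoc (α := fun _ => ℕ) g (u + (D n).toNat) i.castSucc = g i :=
      fun i => Fin.snoc_castSucc _ _ _
    have hl : Fin.snoc (α := fun _ => ℕ) g (u + (D n).toNat) (Fin.last n) = u + (D n).toNat :=
      Fin.snoc_last _ _
    rw [mem_SD]
    refine ⟨?_, ?_, ?_⟩
    · intro i
      refine Fin.lastCases ?_ (fun i => ?_) i
      · simp only [hl]; omega
      · simp only [hs]; have := h1 i; omega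
    · intro i j hij
      have hi : i.val < n := by have := j.2; omega
      obtain ⟨i', rfl⟩ : ∃ i' : Fin n, i = i'.castSucc := ⟨⟨i.val, hi⟩, rfl⟩
      simp only [hs]
      revert hij
      refine Fin.lastCases ?_ (fun j => ?_) j
      · intro _
        simp only [hl, Fin.val_last]
        have := h1 i'
        omega
      · intro hij
        simp only [hs]
        exact h2.1 i' j hij
    · intro j
      refine Fin.lastCases ?_ (fun j => ?_) j
      · intro hj
        simp only [hl, Fin.val_last] at hj ⊢
        omega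
      · intro hj
        simp only [hs]
        exact h2.2 j hj
  · intro f hf
    rw [mem_SD] at hf
    obtain ⟨h1, h2⟩ := hf
    have hδv : (D n).toNat ≤ f (Fin.last n) := by
      rcases Nat.eq_zero_or_pos n with h0 | hpos
      · subst h0
        exact h2.2 (Fin.last 0) rfl
      · have := h2.1 ⟨n - 1, by omega⟩ (Fin.last n) (by simp; omega)
        simp only [Fin.val_last] at this
        omega
    funext i
    refine Fin.lastCases ?_ (fun i => ?_) i
    · rw [Fin.snoc_last]
      simp only
      omega
    · rw [Fin.snoc_castSucc]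
  · rintro ⟨u, g⟩ hx
    have hs : (fun i : Fin n => Fin.snoc (α := fun _ => ℕ) g (u + (D n).toNat) i.castSucc) = g :=
      funext fun i => Fin.snoc_castSucc _ _ _
    have hl : Fin.snoc (α := fun _ => ℕ) g (u + (D n).toNat) (Fin.last n) = u + (D n).toNat :=
      Fin.snoc_last _ _
    simp only [hs, hl, Nat.add_sub_cancel]

theorem hockey (n e K : ℕ) (he : e ≤ n) :
    ∑ u ∈ range K, (u + e).choose n = (K + e).choose (n + 1) := by
  induction K with
  | zero => simp [Nat.choose_eq_zero_of_lt (show e < n + 1 by omega)]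
  | succ K ih =>
    rw [sum_range_succ, ih, show K + 1 + e = (K + e) + 1 by ring, Nat.choose_succ_succ]
    ring

/-- number of strict positions -/
def dcard (D : ℕ → Bool) (n : ℕ) : ℕ := ∑ j ∈ range n, (D j).toNat

theorem dcard_le (D : ℕ → Bool) (n : ℕ) : dcard D n ≤ n := by
  unfold dcard
  refine (sum_le_card_nsmul _ _ 1 ?_).trans (by simp)
  intro j _
  cases D j <;> simp

theorem SD_card (D : ℕ → Bool) (n m : ℕ) :
    (SD D n m).card = (m + n - dcard D n).choose n := by
  induction n generalizing m with
  | zero =>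
    rw [Nat.choose_zero_right, card_eq_one]
    refine ⟨fun i => i.elim0, ?_⟩
    ext f
    rw [mem_SD, mem_singleton]
    constructor
    · intro _; exact funext fun i => i.elim0
    · rintro rfl
      exact ⟨fun i => i.elim0, fun i => i.elim0, fun i => i.elim0⟩
  | succ n ih =>
    rw [SD_succ_card]
    have h1 := dcard_le D n
    have h2 : dcard D (n + 1) = dcard D n + (D n).toNat := by
      rw [dcard, sum_range_succ]; rfl
    have hδ : (D n).toNat ≤ 1 := by cases D n <;> simp
    rw [sum_congr rfl fun u _ => ih u, h2]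
    have h3 : ∀ u, u + n - dcard D n = u + (n - dcard D n) := fun u => by omega
    rw [sum_congr rfl fun u _ => by rw [h3 u], hockey n _ _ (by omega)]
    congr 1
    omega

end Pool.Agent.X17.BInv
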