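import Pool.Agent.X17.BInv.Series

set_option autoImplicit false

/-!
# The gamma recurrence and positivity
-/

namespace Pool.Agent.X17.BInv

open Finset PowerSeries

/-- shift of a sequence -/
def sh (f : ℕ → ℚ) : ℕ → ℚ
  | 0 => 0
  | (i + 1) => f i

theorem sh_zero (f : ℕ → ℚ) : sh f 0 = 0 := rfl

theorem sh_succ (f : ℕ → ℚ) (i : ℕ) : sh f (i + 1) = f i := rfl

/-- the gamma coefficients -/
def gam : ℕ → ℕ → ℚ
  | 0 => fun i => if i = 0 then 1 else 0
  | 1 => fun i => if i = 0 then 1 else 0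
  | (n + 2) => fun i =>
      ((2 * (i : ℚ) + 1) * gam (n + 1) i +
        sh (fun i => 4 * ((n : ℚ) + 1 - 2 * i) * gam (n + 1) i) i +
        ((n : ℚ) + 1 + 2 * i * (i + 1)) * gam n i +
        sh (fun i => 4 * ((2 * (i : ℚ) + 1) * ((n : ℚ) - 2 * i) - i) * gam n i) i +
        sh (sh (fun i => 8 * ((n : ℚ) - 1 - 2 * i) * ((n : ℚ) - 2 * i) * gam n i)) i) / (n + 2)

theorem gam_rec (n i : ℕ) : ((n : ℚ) + 2) * gam (n + 2) i =
    (2 * (i : ℚ) + 1) * gam (n + 1) i +
        sh (fun i => 4 * ((n : ℚ) + 1 - 2 * i) * gam (n + 1) i) i +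
        ((n : ℚ) + 1 + 2 * i * (i + 1)) * gam n i +
        sh (fun i => 4 * ((2 * (i : ℚ) + 1) * ((n : ℚ) - 2 * i) - i) * gam n i) i +
        sh (sh (fun i => 8 * ((n : ℚ) - 1 - 2 * i) * ((n : ℚ) - 2 * i) * gam n i)) i := by
  have h : ((n : ℚ) + 2) ≠ 0 := by positivity
  rw [gam, mul_div_cancel₀ _ h]

theorem gam_support (n : ℕ) : ∀ i, n < 2 * i → gam n i = 0 := by
  induction n using Nat.strong_induction_on with
  | _ n ih =>
    match n with
    | 0 => intro i hi; simp [gam]; omega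
    | 1 => intro i hi; simp [gam]; omega
    | (n + 2) =>
      intro i hi
      have h0 : ((n : ℚ) + 2) ≠ 0 := by positivity
      have h := gam_rec n i
      have e1 : gam (n + 1) i = 0 := ih (n + 1) (by omega) i (by omega)
      have e2 : gam n i = 0 := ih n (by omega) i (by omega)
      obtain ⟨i, rfl⟩ : ∃ k, i = k + 1 := ⟨i - 1, by omega⟩
      have e3 : ((n : ℚ) + 1 - 2 * i) * gam (n + 1) i = 0 := by
        by_cases h1 : n + 1 = 2 * i
        · have : ((n : ℚ) + 1 - 2 * i) = 0 := by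
            have : (n : ℚ) + 1 = 2 * i := by exact_mod_cast h1
            linarith
          rw [this, zero_mul]
        · rw [ih (n + 1) (by omega) i (by omega), mul_zero]
      have e4 : gam n i = 0 := ih n (by omega) i (by omega)
      have e5 : sh (fun i => 8 * ((n : ℚ) - 1 - 2 * i) * ((n : ℚ) - 2 * i) * gam n i) i = 0 := by
        cases i with
        | zero => rfl
        | succ i =>
          rw [sh]
          by_cases h1 : n < 2 * i
          · rw [ih n (by omega) i h1, mul_zero]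
          · have h2 : n = 2 * i ∨ n = 2 * i + 1 := by omega
            rcases h2 with h2 | h2
            · have : (n : ℚ) = 2 * i := by exact_mod_cast h2
              rw [this]; ring
            · have : (n : ℚ) = 2 * i + 1 := by exact_mod_cast h2
              rw [this]; ring
      rw [e1, e2, sh, sh, sh, e4, e5] at h
      have h3 : ((n : ℚ) + 2) * gam (n + 2) (i + 1) = 0 := by
        rw [h]
        linear_combination 4 * e3
      exact (mul_eq_zero.1 h3).resolve_left h0

theorem gam_nonneg (n : ℕ) : ∀ i, 0 ≤ gam n i := by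
  induction n using Nat.strong_induction_on with
  | _ n ih =>
    match n with
    | 0 => intro i; simp only [gam]; split_ifs <;> norm_num
    | 1 => intro i; simp only [gam]; split_ifs <;> norm_num
    | (n + 2) =>
      intro i
      by_cases hsup : n + 2 < 2 * i
      · rw [gam_support _ _ hsup]
      have h0 : (0 : ℚ) < (n : ℚ) + 2 := by positivity
      have h := gam_rec n i
      suffices 0 ≤ ((n : ℚ) + 2) * gam (n + 2) i from nonneg_of_mul_nonneg_right this h0
      have n1 : ∀ i, 0 ≤ gam (n + 1) i := ih (n + 1) (by omega)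
      have n0 : ∀ i, 0 ≤ gam n i := ih n (by omega)
      have t1 : 0 ≤ (2 * (i : ℚ) + 1) * gam (n + 1) i := mul_nonneg (by positivity) (n1 i)
      have t2 : 0 ≤ sh (fun i => 4 * ((n : ℚ) + 1 - 2 * i) * gam (n + 1) i) i := by
        cases i with
        | zero => exact le_rfl
        | succ i =>
          rw [sh]
          by_cases h1 : n + 1 < 2 * i
          · rw [gam_support _ _ h1, mul_zero]
          · have : (2 * (i : ℚ)) ≤ (n : ℚ) + 1 := by
              have : 2 * i ≤ n + 1 := by omega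
              exact_mod_cast this
            exact mul_nonneg (by linarith) (n1 i)
      have t3 : 0 ≤ ((n : ℚ) + 1 + 2 * i * (i + 1)) * gam n i := mul_nonneg (by positivity) (n0 i)
      have t5 : 0 ≤ sh (sh (fun i => 8 * ((n : ℚ) - 1 - 2 * i) * ((n : ℚ) - 2 * i) * gam n i)) i := by
        match i with
        | 0 => exact le_rfl
        | 1 => exact le_rfl
        | (i + 2) =>
          rw [sh, sh]
          by_cases h1 : n < 2 * i
          · rw [gam_support _ _ h1, mul_zero]
          · refine mul_nonneg ?_ (n0 i)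
            have h2 : n = 2 * i ∨ 2 * i + 1 ≤ n := by omega
            rcases h2 with h2 | h2
            · have : (n : ℚ) = 2 * i := by exact_mod_cast h2
              rw [this]; simp
            · have : (2 * (i : ℚ)) + 1 ≤ (n : ℚ) := by exact_mod_cast h2
              exact mul_nonneg (by linarith) (by linarith)
      by_cases hmid : n + 2 = 2 * i
      · -- middle coefficient
        obtain ⟨k, rfl⟩ : ∃ k, i = k + 1 := ⟨i - 1, by omega⟩
        have hn : n = 2 * k := by omega
        subst hn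
        rw [h]
        match k with
        | 0 =>
          simp only [sh, gam]
          norm_num
        | 1 =>
          have g20 : gam 2 0 = 1 := by
            have := gam_rec 0 0
            simp [sh, gam] at this ⊢
          have g21 : gam 2 1 = 2 := by
            have := gam_rec 0 1
            simp [sh, gam] at this ⊢
            norm_num
          have g22 : gam 2 2 = 0 := gam_support 2 2 (by norm_num)
          have g32 : gam 3 2 = 0 := gam_support 3 2 (by norm_num)
          have g31 : 0 ≤ gam 3 1 := n1 1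
          simp only [sh]
          norm_num [g20, g21, g22, g32]
          linarith
        | (j + 2) =>
          -- `k = j + 2`
          have hU : 0 ≤ gam (2 * (j + 2) + 1) (j + 2) := n1 (j + 2)
          have z1 : gam (2 * (j + 2) + 1) (j + 2 + 1) = 0 := gam_support _ _ (by omega)
          have z2 : gam (2 * (j + 2)) (j + 2 + 1) = 0 := gam_support _ _ (by omega)
          -- recurrences for the row `2 k = 2 j + 4`
          have r1 := gam_rec (2 * j + 2) (j + 2)
          have r2 := gam_rec (2 * j + 2) (j + 1)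
          have e1 : 2 * j + 2 + 2 = 2 * (j + 2) := by ring
          have e2 : 2 * j + 2 + 1 = 2 * j + 3 := by ring
          rw [e1, e2] at r1 r2
          have z3 : gam (2 * j + 3) (j + 2) = 0 := gam_support _ _ (by omega)
          have z4 : gam (2 * j + 2) (j + 2) = 0 := gam_support _ _ (by omega)
          have p1 : 0 ≤ gam (2 * j + 3) (j + 1) := ih (2 * j + 3) (by omega) _
          have p2 : 0 ≤ gam (2 * j + 3) j := ih (2 * j + 3) (by omega) _
          have p3 : 0 ≤ gam (2 * j + 2) (j + 1) := ih (2 * j + 2) (by omega) _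
          have p4 : 0 ≤ gam (2 * j + 2) j := ih (2 * j + 2) (by omega) _
          have p5 : 0 ≤ sh (fun i => gam (2 * j + 2) i) j := by
            cases j with
            | zero => exact le_rfl
            | succ j => exact ih _ (by omega) _
          have p6 : sh (fun i => 8 * (((2 * j + 2 : ℕ) : ℚ) - 1 - 2 * i) *
              (((2 * j + 2 : ℕ) : ℚ) - 2 * i) * gam (2 * j + 2) i) j =
              96 * sh (fun i => gam (2 * j + 2) i) j := by
            cases j with
            | zero => simp [sh]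
            | succ j =>
              rw [sh, sh]
              push_cast
              ring
          simp only [sh_succ] at r1 r2 ⊢
          rw [z3, z4] at r1
          rw [p6] at r2
          rw [z1, z2]
          push_cast at r1 r2 ⊢
          have hj : (0 : ℚ) ≤ j := by positivity
          set U := gam (2 * j + 3) (j + 1)
          set U' := gam (2 * j + 3) j
          set T' := gam (2 * j + 2) (j + 1)
          set S' := gam (2 * j + 2) j
          set R' := sh (fun i => gam (2 * j + 2) i) j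
          set T := gam (2 * (j + 2)) (j + 2)
          set Sx := gam (2 * (j + 2)) (j + 1)
          set V := gam (2 * (j + 2) + 1) (j + 2)
          -- `4 S ≥ k T`
          have key : ((j : ℚ) + 2) * T ≤ 4 * Sx := by
            have hk : (0 : ℚ) < 2 * (j : ℚ) + 4 := by positivity
            have hb : 0 ≤ (2 * (j : ℚ) + 4) * (4 * Sx - ((j : ℚ) + 2) * T) := by
              have e : (2 * (j : ℚ) + 4) * (4 * Sx - ((j : ℚ) + 2) * T) =
                  4 * ((j : ℚ) + 1) * U + 48 * U' + (12 * (j : ℚ) ^ 2 + 44 * j + 36) * T' +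
                    32 * (j : ℚ) * S' + 384 * R' := by
                linear_combination 4 * r2 - ((j : ℚ) + 2) * r1
              rw [e]
              positivity
            have := nonneg_of_mul_nonneg_right hb hk
            linarith
          nlinarith
      · have t4 : 0 ≤ sh (fun i => 4 * ((2 * (i : ℚ) + 1) * ((n : ℚ) - 2 * i) - i) * gam n i) i := by
          cases i with
          | zero => exact le_rfl
          | succ i =>
            rw [sh]
            by_cases h1 : n < 2 * i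
            · rw [gam_support _ _ h1, mul_zero]
            · have h2 : 2 * i + 1 ≤ n := by omega
              have h3 : (2 * (i : ℚ)) + 1 ≤ (n : ℚ) := by exact_mod_cast h2
              refine mul_nonneg ?_ (n0 i)
              have h4 : (0 : ℚ) ≤ i := by positivity
              nlinarith
        rw [h]
        linarith

/-- the basis `x^i (1+x)^(n-2i)` -/
noncomputable def e (n i : ℕ) : ℚ⟦X⟧ := X ^ i * (1 + X) ^ (n - 2 * i)

theorem D_X_pow (i : ℕ) : X * D ((X : ℚ⟦X⟧) ^ i) = (i : ℚ⟦X⟧) * X ^ i := by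
  induction i with
  | zero => simp
  | succ i ih =>
    rw [pow_succ, D_mul]
    have h : D (X : ℚ⟦X⟧) = 1 := by simp [D]
    rw [h]
    push_cast
    linear_combination X * ih

theorem D_one_add_pow (r : ℕ) : (1 + X) * D ((1 + X : ℚ⟦X⟧) ^ r) = (r : ℚ⟦X⟧) * (1 + X) ^ r := by
  induction r with
  | zero => simp
  | succ r ih =>
    rw [pow_succ, D_mul]
    have h : D (1 + X : ℚ⟦X⟧) = 1 := by simp [D]
    rw [h]
    push_cast
    linear_combination (1 + X) * ih

theorem theta_basis (i r : ℕ) (F : ℚ⟦X⟧) (hF : F = X ^ i * (1 + X) ^ r) :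
    (1 + X) * (X * D F) = ((i : ℚ⟦X⟧) * (1 + X) + (r : ℚ⟦X⟧) * X) * F := by
  rw [hF, D_mul]
  linear_combination (1 + X) ^ (r + 1) * D_X_pow i + X ^ (i + 1) * D_one_add_pow r

theorem one_add_X_ne : (1 + X : ℚ⟦X⟧) ≠ 0 := by
  intro h
  have := congrArg (coeff 0) h
  simp at this

theorem T1_basis (n i : ℕ) (hi : 2 * i ≤ n + 1) : T1 n (e (n + 1) i) =
    (2 * (i : ℚ⟦X⟧) + 1) * e (n + 2) i +
      4 * ((n : ℚ⟦X⟧) + 1 - 2 * (i : ℚ⟦X⟧)) * e (n + 2) (i + 1) := by
  obtain ⟨r, hr⟩ : ∃ r, n + 1 = 2 * i + r := ⟨n + 1 - 2 * i, by omega⟩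
  have hF : e (n + 1) i = X ^ i * (1 + X) ^ r := by
    rw [e, show n + 1 - 2 * i = r by omega]
  have h1 := theta_basis i r _ hF
  have h2 : e (n + 2) i = (1 + X) * e (n + 1) i := by
    rw [hF, e, show n + 2 - 2 * i = r + 1 by omega]; ring
  have h3 : (r : ℚ⟦X⟧) * ((1 + X) * e (n + 2) (i + 1)) = (r : ℚ⟦X⟧) * (X * e (n + 1) i) := by
    cases r with
    | zero => simp
    | succ r =>
      rw [hF, e, show n + 2 - 2 * (i + 1) = r by omega]; ring
  have hn : (n : ℚ⟦X⟧) = 2 * (i : ℚ⟦X⟧) + (r : ℚ⟦X⟧) - 1 := by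
    have : ((n + 1 : ℕ) : ℚ⟦X⟧) = ((2 * i + r : ℕ) : ℚ⟦X⟧) := by rw [hr]
    push_cast at this
    linear_combination this
  apply mul_left_cancel₀ one_add_X_ne
  rw [T1, hn, h2]
  linear_combination 2 * (1 - X) * h1 - 4 * h3

theorem T2_basis (n i : ℕ) (hi : 2 * i ≤ n) : T2 n (e n i) =
    ((n : ℚ⟦X⟧) + 1 + 2 * (i : ℚ⟦X⟧) * ((i : ℚ⟦X⟧) + 1)) * e (n + 2) i +
      4 * ((2 * (i : ℚ⟦X⟧) + 1) * ((n : ℚ⟦X⟧) - 2 * (i : ℚ⟦X⟧)) - (i : ℚ⟦X⟧)) * e (n + 2) (i + 1) +
      8 * ((n : ℚ⟦X⟧) - 1 - 2 * (i : ℚ⟦X⟧)) * ((n : ℚ⟦X⟧) - 2 * (i : ℚ⟦X⟧)) *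
        e (n + 2) (i + 2) := by
  obtain ⟨r, hr⟩ : ∃ r, n = 2 * i + r := ⟨n - 2 * i, by omega⟩
  have hF : e n i = X ^ i * (1 + X) ^ r := by
    rw [e, show n - 2 * i = r by omega]
  have h1 := theta_basis i r _ hF
  have h2 : e (n + 2) i = (1 + X) ^ 2 * e n i := by
    rw [hF, e, show n + 2 - 2 * i = r + 2 by omega]; ring
  have h3 : e (n + 2) (i + 1) = X * e n i := by
    rw [hF, e, show n + 2 - 2 * (i + 1) = r by omega]; ring
  have h4 : ((r : ℚ⟦X⟧) - 1) * (r : ℚ⟦X⟧) * ((1 + X) ^ 2 * e (n + 2) (i + 2)) =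
      ((r : ℚ⟦X⟧) - 1) * (r : ℚ⟦X⟧) * (X ^ 2 * e n i) := by
    match r with
    | 0 => simp
    | 1 => simp
    | (r + 2) =>
      rw [hF, e, show n + 2 - 2 * (i + 2) = r by omega]; ring
  have hn : (n : ℚ⟦X⟧) = 2 * (i : ℚ⟦X⟧) + (r : ℚ⟦X⟧) := by
    have : ((n : ℕ) : ℚ⟦X⟧) = ((2 * i + r : ℕ) : ℚ⟦X⟧) := by rw [← hr]
    push_cast at this
    exact this
  -- `(1 + X) K = P F`
  have hK : (1 + X) * K n (e n i) = ((1 - X) * ((i : ℚ⟦X⟧) * (1 + X) + (r : ℚ⟦X⟧) * X) +
      ((n : ℚ⟦X⟧) + 1) * X * (1 + X)) * e n i := by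
    rw [K]
    linear_combination (1 - X) * h1
  have hDK := congrArg D hK
  rw [D_mul, D_mul] at hDK
  have hD1 : D (1 + X : ℚ⟦X⟧) = 1 := by simp [D]
  have hDP : D ((1 - X) * ((i : ℚ⟦X⟧) * (1 + X) + (r : ℚ⟦X⟧) * X) +
      ((n : ℚ⟦X⟧) + 1) * X * (1 + X)) = -((i : ℚ⟦X⟧) * (1 + X) + (r : ℚ⟦X⟧) * X) +
      (1 - X) * ((i : ℚ⟦X⟧) + (r : ℚ⟦X⟧)) + ((n : ℚ⟦X⟧) + 1) * (1 + 2 * X) := by
    have hi : ((i : ℕ) : ℚ⟦X⟧) = C (i : ℚ) := (map_natCast C i).symm
    have hr' : ((r : ℕ) : ℚ⟦X⟧) = C (r : ℚ) := (map_natCast C r).symm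
    have hn' : ((n : ℕ) : ℚ⟦X⟧) = C (n : ℚ) := (map_natCast C n).symm
    have hC : ∀ a : ℚ, D (C a) = 0 := fun a => derivative_C
    have hDX : D (X : ℚ⟦X⟧) = 1 := by simp [D]
    have hD1' : D (1 : ℚ⟦X⟧) = 0 := by simp [D]
    have hadd : ∀ f g : ℚ⟦X⟧, D (f + g) = D f + D g := fun f g => by simp [D]
    have hsub : ∀ f g : ℚ⟦X⟧, D (f - g) = D f - D g := fun f g => by simp [D]
    rw [hi, hr', hn']
    simp only [hadd, hsub, D_mul, hC, hDX, hD1']
    ring
  rw [hD1, hDP] at hDK
  apply mul_left_cancel₀ (pow_ne_zero 2 one_add_X_ne)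
  rw [T2, h2, h3]
  rw [hn] at hK hDK ⊢
  linear_combination 2 * (1 - X) * X * (1 + X) * hDK + 2 * (1 - X) *
    ((1 - X) * ((i : ℚ⟦X⟧) * (1 + X) + (r : ℚ⟦X⟧) * X) +
      (2 * (i : ℚ⟦X⟧) + (r : ℚ⟦X⟧) + 1) * X * (1 + X)) * h1 +
    ((1 + X) * (2 * (2 * (i : ℚ⟦X⟧) + (r : ℚ⟦X⟧) + 2) * X + 2 * (1 - X)) - 2 * (1 - X) * X) * hK
    - 8 * h4

theorem D_sum {ι : Type} (s : Finset ι) (f : ι → ℚ⟦X⟧) : D (∑ i ∈ s, f i) = ∑ i ∈ s, D (f i) := by
  simp [D]

theorem D_C_mul (a : ℚ) (f : ℚ⟦X⟧) : D (C a * f) = C a * D f := by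
  rw [D_mul]
  have : D (C a) = 0 := derivative_C
  rw [this, mul_zero, add_zero]

theorem T1_sum (n : ℕ) (s : Finset ℕ) (a : ℕ → ℚ) (f : ℕ → ℚ⟦X⟧) :
    T1 n (∑ i ∈ s, C (a i) * f i) = ∑ i ∈ s, C (a i) * T1 n (f i) := by
  unfold T1
  rw [D_sum, mul_sum, mul_sum, mul_sum, ← sum_add_distrib]
  refine sum_congr rfl fun i _ => ?_
  rw [D_C_mul]
  ring

theorem K_sum (n : ℕ) (s : Finset ℕ) (a : ℕ → ℚ) (f : ℕ → ℚ⟦X⟧) :
    K n (∑ i ∈ s, C (a i) * f i) = ∑ i ∈ s, C (a i) * K n (f i) := by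
  unfold K
  rw [D_sum, mul_sum, mul_sum, mul_sum, ← sum_add_distrib]
  refine sum_congr rfl fun i _ => ?_
  rw [D_C_mul]
  ring

theorem T2_sum (n : ℕ) (s : Finset ℕ) (a : ℕ → ℚ) (f : ℕ → ℚ⟦X⟧) :
    T2 n (∑ i ∈ s, C (a i) * f i) = ∑ i ∈ s, C (a i) * T2 n (f i) := by
  unfold T2
  rw [K_sum, D_sum, mul_sum, mul_sum, mul_sum, mul_sum, ← sum_add_distrib, ← sum_add_distrib]
  refine sum_congr rfl fun i _ => ?_
  rw [D_C_mul]
  ring

theorem sum_sh (N : ℕ) (f : ℕ → ℚ) (g : ℕ → ℚ⟦X⟧) :
    ∑ i ∈ range (N + 1), C (sh f i) * g i = ∑ i ∈ range N, C (f i) * g (i + 1) := by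
  rw [sum_range_succ' _ N]
  simp only [sh_succ, sh_zero, map_zero, zero_mul, add_zero]

theorem C_natCast (n : ℕ) : (C (n : ℚ) : ℚ⟦X⟧) = (n : ℚ⟦X⟧) := map_natCast C n

theorem C_ofNat2 : (C (2 : ℚ) : ℚ⟦X⟧) = 2 := map_ofNat C 2
theorem C_ofNat4 : (C (4 : ℚ) : ℚ⟦X⟧) = 4 := map_ofNat C 4
theorem C_ofNat8 : (C (8 : ℚ) : ℚ⟦X⟧) = 8 := map_ofNat C 8

/-- The gamma expansion of the numerator. -/
theorem J_gamma (n : ℕ) : J n = ∑ i ∈ range (n + 1), C (gam n i) * e n i := by
  induction n using Nat.strong_induction_on with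
  | _ n ih =>
    match n with
    | 0 => simp [J_zero, gam, e]
    | 1 =>
      rw [J_one, sum_range_succ, sum_range_succ, sum_range_zero]
      simp [gam, e]
    | (n + 2) =>
      have h0 : ((n : ℚ⟦X⟧) + 2) ≠ 0 := by
        intro h
        have := congrArg (coeff 0) h
        rw [← C_natCast, ← C_ofNat2, ← map_add] at this
        simp at this
        have h2 : (0 : ℚ) ≤ n := by positivity
        linarith
      apply mul_left_cancel₀ h0
      rw [J_rec, ih (n + 1) (by omega), ih n (by omega), T1_sum, T2_sum]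
      -- the left-hand side
      have hL1 : ∑ i ∈ range (n + 1 + 1), C (gam (n + 1) i) * T1 n (e (n + 1) i) =
          ∑ i ∈ range (n + 3), C ((2 * (i : ℚ) + 1) * gam (n + 1) i) * e (n + 2) i +
          ∑ i ∈ range (n + 3), C (sh (fun i => 4 * ((n : ℚ) + 1 - 2 * i) * gam (n + 1) i) i) *
            e (n + 2) i := by
        rw [sum_sh, sum_range_succ _ (n + 2), gam_support (n + 1) (n + 2) (by omega), mul_zero,
          map_zero, zero_mul, add_zero, ← sum_add_distrib]
        refine sum_congr rfl fun i _ => ?_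
        by_cases h1 : n + 1 < 2 * i
        · rw [gam_support _ _ h1]
          simp
        · rw [T1_basis n i (by omega)]
          simp only [map_mul, map_add, map_sub, map_one, C_natCast, C_ofNat2, C_ofNat4]
          ring
      have hL2 : ∑ i ∈ range (n + 1), C (gam n i) * T2 n (e n i) =
          ∑ i ∈ range (n + 3), C (((n : ℚ) + 1 + 2 * i * (i + 1)) * gam n i) * e (n + 2) i +
          ∑ i ∈ range (n + 3), C (sh (fun i => 4 * ((2 * (i : ℚ) + 1) * ((n : ℚ) - 2 * i) - i) *
            gam n i) i) * e (n + 2) i +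
          ∑ i ∈ range (n + 3), C (sh (sh (fun i => 8 * ((n : ℚ) - 1 - 2 * i) *
            ((n : ℚ) - 2 * i) * gam n i)) i) * e (n + 2) i := by
        rw [sum_sh, sum_sh, sum_sh _ _ (fun i => e (n + 2) (i + 1)),
          sum_range_succ _ (n + 2), sum_range_succ _ (n + 1), sum_range_succ _ (n + 1),
          gam_support n (n + 2) (by omega), gam_support n (n + 1) (by omega)]
        simp only [mul_zero, map_zero, zero_mul, add_zero]
        rw [← sum_add_distrib, ← sum_add_distrib]
        refine sum_congr rfl fun i _ => ?_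
        by_cases h1 : n < 2 * i
        · rw [gam_support _ _ h1]
          simp
        · rw [T2_basis n i (by omega)]
          simp only [map_mul, map_add, map_sub, map_one, C_natCast, C_ofNat2, C_ofNat4, C_ofNat8]
          ring
      rw [hL1, hL2, mul_sum, ← sum_add_distrib, ← sum_add_distrib, ← sum_add_distrib,
        ← sum_add_distrib]
      refine sum_congr rfl fun i _ => ?_
      rw [← add_mul, ← add_mul, ← add_mul, ← add_mul, ← map_add, ← map_add, ← map_add, ← map_add,
        ← mul_assoc]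
      congr 1
      rw [← C_natCast, ← C_ofNat2, ← map_add, ← map_mul, gam_rec]
      congr 1
      ring

end Pool.Agent.X17.BInv
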