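import Pool.Agent.X17.BInv.Count

set_option autoImplicit false

/-!
# Sequences with prescribed fibre sizes, ranks in fibres
-/

namespace Pool.Agent.X17.BInv

open Finset

variable {n : ℕ} {Q α : Type} [DecidableEq Q] [LinearOrder α]

/-- number of positions in the class `q` -/
def cnt (p : Fin n → Q) (q : Q) : ℕ := (univ.filter fun i => p i = q).card

/-- rank of a position in its class -/
def rk (p : Fin n → Q) (i : Fin n) : ℕ := (univ.filter fun j => j < i ∧ p j = p i).card

theorem rk_lt (p : Fin n → Q) (i : Fin n) : rk p i < cnt p (p i) := by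
  refine card_lt_card ?_
  rw [ssubset_iff_of_subset]
  · exact ⟨i, by simp, by simp⟩
  · intro j hj
    rw [mem_filter] at hj ⊢
    exact ⟨hj.1, hj.2.2⟩

theorem rk_lt_rk (p : Fin n → Q) {i j : Fin n} (h : i < j) (hp : p i = p j) :
    rk p i < rk p j := by
  refine card_lt_card ?_
  rw [ssubset_iff_of_subset]
  · exact ⟨i, by simp [h, hp], by simp⟩
  · intro k hk
    rw [mem_filter] at hk ⊢
    exact ⟨hk.1, hk.2.1.trans h, hk.2.2.trans hp⟩

theorem eq_of_rk (p : Fin n → Q) {i j : Fin n} (hp : p i = p j) (h : rk p i = rk p j) : i = j := by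
  rcases lt_trichotomy i j with h1 | h1 | h1
  · exact absurd h (rk_lt_rk p h1 hp).ne
  · exact h1
  · exact absurd h (rk_lt_rk p h1 hp.symm).ne'

theorem lt_of_rk (p : Fin n → Q) {i j : Fin n} (hp : p i = p j) (h : rk p i < rk p j) : i < j := by
  rcases lt_trichotomy i j with h1 | h1 | h1
  · exact h1
  · subst h1; exact absurd h (lt_irrefl _)
  · exact absurd h (rk_lt_rk p h1 hp.symm).le.not_gt

theorem exists_rank (p : Fin n → Q) (q : Q) (r : ℕ) (hr : r < cnt p q) :
    ∃ i, p i = q ∧ rk p i = r := by
  have h1 : (univ.filter fun i => p i = q).image (rk p) = range (cnt p q) := by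
    refine eq_of_subset_of_card_le ?_ ?_
    · intro x hx
      rw [mem_image] at hx
      obtain ⟨i, hi, rfl⟩ := hx
      rw [mem_filter] at hi
      rw [mem_range, ← hi.2]
      exact rk_lt p i
    · rw [card_range, card_image_of_injOn]
      · rfl
      · intro i hi j hj hij
        rw [mem_coe, mem_filter] at hi hj
        exact eq_of_rk p (hi.2.trans hj.2.symm) hij
  have h2 : r ∈ (univ.filter fun i => p i = q).image (rk p) := by
    rw [h1, mem_range]; exact hr
  rw [mem_image] at h2
  obtain ⟨i, hi, hri⟩ := h2
  rw [mem_filter] at hi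
  exact ⟨i, hi.2, hri⟩

/-- the fibre is split by a member into smaller, equal and larger members -/
theorem card_gt (p : Fin n → Q) (i : Fin n) :
    (univ.filter fun j => i < j ∧ p j = p i).card = cnt p (p i) - 1 - rk p i := by
  have h : cnt p (p i) = rk p i + 1 + (univ.filter fun j => i < j ∧ p j = p i).card := by
    have h1 : (univ.filter fun j => p j = p i) =
        ((univ.filter fun j => j < i ∧ p j = p i) ∪ {i}) ∪
          (univ.filter fun j => i < j ∧ p j = p i) := by
      ext j
      simp only [mem_filter, mem_univ, true_and, mem_union, mem_singleton]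
      constructor
      · intro hj
        rcases lt_trichotomy j i with h1 | h1 | h1
        · exact Or.inl (Or.inl ⟨h1, hj⟩)
        · exact Or.inl (Or.inr h1)
        · exact Or.inr ⟨h1, hj⟩
      · rintro ((h1 | h1) | h1)
        · exact h1.2
        · rw [h1]
        · exact h1.2
    rw [cnt, h1, card_union_of_disjoint, card_union_of_disjoint]
    · simp [rk]
    · rw [disjoint_singleton_right]
      simp
    · rw [disjoint_left]
      intro j hj hj'
      simp only [mem_filter, mem_univ, true_and, mem_union, mem_singleton] at hj hj'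
      rcases hj with h1 | h1
      · exact absurd (h1.1.trans hj'.1) (lt_irrefl _)
      · exact absurd (h1 ▸ hj'.1) (lt_irrefl _)
  omega

theorem lt_iff_initial (g : Fin n → α) (hg : Monotone g) (i : Fin n) (a : α) :
    g i < a ↔ i.val < (univ.filter fun j => g j < a).card := by
  constructor
  · intro h
    have : (Iic i).card ≤ (univ.filter fun j => g j < a).card := by
      refine card_le_card ?_
      intro j hj
      rw [mem_Iic] at hj
      rw [mem_filter]
      exact ⟨mem_univ _, (hg hj).trans_lt h⟩
    rw [Fin.card_Iic] at this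
    omega
  · intro h
    by_contra hc
    have : (univ.filter fun j => g j < a).card ≤ (Iio i).card := by
      refine card_le_card ?_
      intro j hj
      rw [mem_filter] at hj
      rw [mem_Iio]
      by_contra hij
      exact hc ((hg (not_lt.1 hij)).trans_lt hj.2)
    rw [Fin.card_Iio] at this
    omega

theorem card_filter_eq_sum (p : Fin n → Q) (T : Finset Q) (hT : ∀ i, p i ∈ T) (R : Q → Prop)
    [DecidablePred R] :
    (univ.filter fun i => R (p i)).card = ∑ q ∈ T.filter R, cnt p q := by
  rw [card_eq_sum_card_fiberwise (f := p) (t := T.filter R)]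
  · refine sum_congr rfl fun q hq => ?_
    rw [mem_filter] at hq
    rw [cnt]
    congr 1
    ext i
    simp only [mem_filter, mem_univ, true_and]
    constructor
    · exact fun h => h.2
    · exact fun h => ⟨h ▸ hq.2, h⟩
  · intro i hi
    rw [mem_coe, mem_filter] at hi
    rw [mem_coe, mem_filter]
    exact ⟨hT i, hi.2⟩

theorem eq_of_cnt (κ : Q → α) (hκ : Function.Injective κ) (p p' : Fin n → Q)
    (hp : Monotone (κ ∘ p)) (hp' : Monotone (κ ∘ p')) (h : ∀ q, cnt p q = cnt p' q) :
    p = p' := by
  have key : ∀ (i : Fin n) (a : α), κ (p i) < a ↔ κ (p' i) < a := by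
    intro i a
    have h1 := lt_iff_initial _ hp i a
    have h2 := lt_iff_initial _ hp' i a
    have h3 : (univ.filter fun j => (κ ∘ p) j < a).card =
        (univ.filter fun j => (κ ∘ p') j < a).card := by
      have e1 := card_filter_eq_sum p (univ.image p ∪ univ.image p')
        (fun i => mem_union_left _ (mem_image_of_mem _ (mem_univ _))) (fun q => κ q < a)
      have e2 := card_filter_eq_sum p' (univ.image p ∪ univ.image p')
        (fun i => mem_union_right _ (mem_image_of_mem _ (mem_univ _))) (fun q => κ q < a)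
      simp only [Function.comp]
      rw [e1, e2]
      exact sum_congr rfl fun q _ => h q
    rw [h3] at h1
    exact h1.trans h2.symm
  funext i
  apply hκ
  refine le_antisymm ?_ ?_
  · by_contra hc
    exact absurd ((key i (κ (p i))).2 (not_le.1 hc)) (lt_irrefl _)
  · by_contra hc
    exact absurd ((key i (κ (p' i))).1 (not_le.1 hc)) (lt_irrefl _)

/-- existence of a monotone sequence with given fibre sizes -/
theorem exists_seq (κ : Q → α) (T : Finset Q) (M : Q → ℕ) (hM : ∑ q ∈ T, M q = n)
    (hsupp : ∀ q, M q ≠ 0 → q ∈ T) :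
    ∃ p : Fin n → Q, Monotone (κ ∘ p) ∧ ∀ q, cnt p q = M q := by
  have hcard : Fintype.card (Fin n) = Fintype.card (Σ q : T, Fin (M q)) := by
    rw [Fintype.card_sigma, Fintype.card_fin]
    simp only [Fintype.card_fin]
    rw [← hM, ← sum_coe_sort T M]
  obtain ⟨e⟩ := Fintype.card_eq.1 hcard
  let p0 : Fin n → Q := fun i => ((e i).1 : Q)
  have hp0 : ∀ q, cnt p0 q = M q := by
    intro q
    by_cases hq : q ∈ T
    · have h1 : cnt p0 q = Fintype.card {i : Fin n // p0 i = q} := by
        rw [Fintype.card_subtype]; rfl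
      rw [h1, ← Fintype.card_fin (M q)]
      refine Fintype.card_congr ?_
      refine (e.subtypeEquiv (q := fun x : (Σ q : T, Fin (M q)) => x.1 = ⟨q, hq⟩) ?_).trans
        (Equiv.sigmaSubtype (β := fun q : T => Fin (M q)) ⟨q, hq⟩)
      intro i
      simp only [p0]
      exact ⟨fun h => Subtype.ext h, fun h => congrArg Subtype.val h⟩
    · have h2 : M q = 0 := by
        by_contra hne
        exact hq (hsupp q hne)
      rw [h2, cnt, card_eq_zero, filter_eq_empty_iff]
      intro i _ hi
      exact hq (hi ▸ (e i).1.2)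
  refine ⟨p0 ∘ Tuple.sort (κ ∘ p0), Tuple.monotone_sort (κ ∘ p0), fun q => ?_⟩
  rw [← hp0 q, cnt, cnt]
  refine card_bij (fun i _ => Tuple.sort (κ ∘ p0) i) ?_ ?_ ?_
  · intro i hi
    rw [mem_filter] at hi ⊢
    exact ⟨mem_univ _, hi.2⟩
  · intro i _ j _ h
    exact (Tuple.sort (κ ∘ p0)).injective h
  · intro j hj
    rw [mem_filter] at hj
    refine ⟨(Tuple.sort (κ ∘ p0)).symm j, ?_, by simp⟩
    rw [mem_filter]
    refine ⟨mem_univ _, ?_⟩
    simpa using hj.2

end Pool.Agent.X17.BInv
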