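import Pool.Agent.X17.BInv.Bij

set_option autoImplicit false

/-!
# Recurrence for the number of symmetric matrices
-/

namespace Pool.Agent.X17.BInv

open Finset

/-- indicator of the orbit of `q` -/
def ind (q r : Q) : ℕ := if r = q ∨ r = tau q then 1 else 0

theorem ind_tau (q r : Q) : ind q (tau r) = ind q r := by
  unfold ind
  congr 1
  apply propext
  constructor
  · rintro (h | h)
    · right; rw [← h, tau_tau]
    · left; rw [← tau_tau r, h, tau_tau]
  · rintro (h | h)
    · right; rw [h]
    · left; rw [h, tau_tau]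

theorem sum_ind {T : Finset Q} (hT : ∀ q ∈ T, tau q ∈ T) {q : Q} (hq : q ∈ T) :
    ∑ r ∈ T, ind q r = if tau q = q then 1 else 2 := by
  have h1 : ∑ r ∈ T, ind q r = (T.filter fun r => r = q ∨ r = tau q).card := by
    rw [card_filter]; rfl
  have h2 : (T.filter fun r => r = q ∨ r = tau q) = {q, tau q} := by
    ext r
    rw [mem_filter, mem_insert, mem_singleton]
    constructor
    · exact fun h => h.2
    · rintro (h | h)
      · exact ⟨h ▸ hq, Or.inl h⟩
      · exact ⟨h ▸ hT q hq, Or.inr h⟩
  rw [h1, h2]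
  by_cases h : tau q = q
  · rw [if_pos h, h]; simp
  · rw [if_neg h, card_pair (Ne.symm h)]

theorem ind_self (q : Q) : ind q q = 1 := by simp [ind]

theorem tau_val {T : Finset Q} {n : ℕ} {M : Q → ℕ} (hT : ∀ q ∈ T, tau q ∈ T) (hM : M ∈ MM T n)
    (r : Q) : M (tau r) = M r := by
  rw [mem_MM] at hM
  by_cases hr : r ∈ T
  · exact hM.2 r hr
  · have h1 : M r = 0 := by
      by_contra h
      exact hr (hM.1.2 r h)
    have h2 : M (tau r) = 0 := by
      by_contra h
      have := hT _ (hM.1.2 _ h)
      rw [tau_tau] at this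
      exact hr this
    rw [h1, h2]

theorem sum_shift {T : Finset Q} (hT : ∀ q ∈ T, tau q ∈ T) {q : Q} (hq : q ∈ T) (n : ℕ) :
    ∑ M ∈ MM T (n + if tau q = q then 1 else 2), M q = ∑ M ∈ MM T n, (M q + 1) := by
  rw [← sum_filter_ne_zero]
  have hle : ∀ M ∈ (MM T (n + if tau q = q then 1 else 2)).filter (fun M => M q ≠ 0), ∀ r,
      ind q r ≤ M r := by
    intro M hM r
    rw [mem_filter] at hM
    unfold ind
    by_cases h : r = q ∨ r = tau q
    · rw [if_pos h]
      rcases h with h | h
      · rw [h]; have := hM.2; omega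
      · rw [h, tau_val hT hM.1]; have := hM.2; omega
    · rw [if_neg h]; omega
  refine sum_bij' (fun M _ => fun r => M r - ind q r) (fun M _ => fun r => M r + ind q r)
    ?_ ?_ ?_ ?_ ?_
  · intro M hM
    have hl := hle M hM
    rw [mem_filter] at hM
    have hMM := hM.1
    rw [mem_MM] at hMM ⊢
    refine ⟨⟨?_, ?_⟩, ?_⟩
    · have h1 : ∑ r ∈ T, (M r - ind q r) + ∑ r ∈ T, ind q r = ∑ r ∈ T, M r := by
        rw [← sum_add_distrib]
        refine sum_congr rfl fun r _ => ?_
        have := hl r
        omega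
      rw [sum_ind hT hq, hMM.1.1] at h1
      omega
    · intro r hr
      apply hMM.1.2
      omega
    · intro r hr
      rw [ind_tau, hMM.2 r hr]
  · intro M hM
    have hM0 := hM
    rw [mem_filter]
    rw [mem_MM] at hM ⊢
    refine ⟨⟨⟨?_, ?_⟩, ?_⟩, ?_⟩
    · rw [sum_add_distrib, sum_ind hT hq, hM.1.1]
    · intro r hr
      by_cases h0 : M r = 0
      · have : ind q r ≠ 0 := by omega
        unfold ind at this
        by_cases h : r = q ∨ r = tau q
        · rcases h with h | h
          · rw [h]; exact hq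
          · rw [h]; exact hT q hq
        · rw [if_neg h] at this; exact absurd rfl this
      · exact hM.1.2 r h0
    · intro r hr
      rw [ind_tau, hM.2 r hr]
    · change M q + ind q q ≠ 0
      rw [ind_self]; omega
  · intro M hM
    have hl := hle M hM
    funext r
    have := hl r
    simp only
    omega
  · intro M _
    funext r
    simp only
    omega
  · intro M hM
    have h1 := hle M hM q
    rw [ind_self] at h1
    simp only [ind_self]
    omega

theorem card_MM_zero (T : Finset Q) : (MM T 0).card = 1 := by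
  rw [card_eq_one]
  refine ⟨fun _ => 0, ?_⟩
  ext M
  rw [mem_MM, mem_singleton]
  constructor
  · rintro ⟨⟨h1, h2⟩, _⟩
    funext q
    by_contra h
    have := (sum_eq_zero_iff.1 h1) q (h2 q h)
    exact h this
  · rintro rfl
    simp

theorem card_MM_one {T : Finset Q} (hT : ∀ q ∈ T, tau q ∈ T) :
    (MM T 1).card = (T.filter fun q => tau q = q).card := by
  have h1 : (MM T 1).card = ∑ q ∈ T, ∑ M ∈ MM T 1, M q := by
    rw [sum_comm, card_eq_sum_ones]
    refine sum_congr rfl fun M hM => ?_
    exact ((mem_MM.1 hM).1.1).symm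
  rw [h1, card_filter]
  refine sum_congr rfl fun q hq => ?_
  by_cases h : tau q = q
  · have h2 := sum_shift hT hq 0
    rw [if_pos h, zero_add] at h2
    rw [if_pos h, h2]
    have h3 : ∀ M ∈ MM T 0, M q + 1 = 1 := by
      intro M hM
      have h4 := (mem_MM.1 hM).1.1
      have := (sum_eq_zero_iff.1 h4) q hq
      omega
    rw [sum_congr rfl h3, sum_const, card_MM_zero]
    simp
  · rw [if_neg h]
    refine sum_eq_zero fun M hM => ?_
    by_contra hne
    have h4 := (mem_MM.1 hM).1.1
    have h5 : M q + M (tau q) ≤ ∑ r ∈ T, M r := by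
      rw [← sum_pair (Ne.symm h)]
      refine sum_le_sum_of_subset ?_
      intro r hr
      rw [mem_insert, mem_singleton] at hr
      rcases hr with rfl | rfl
      · exact hq
      · exact hT q hq
    rw [tau_val hT hM] at h5
    omega

theorem card_MM_rec {T : Finset Q} (hT : ∀ q ∈ T, tau q ∈ T) (n : ℕ) :
    (n + 2) * (MM T (n + 2)).card = (T.filter fun q => tau q = q).card * (MM T (n + 1)).card +
      (T.card + n) * (MM T n).card := by
  have hsum : ∀ k, k * (MM T k).card = ∑ q ∈ T, ∑ M ∈ MM T k, M q := by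
    intro k
    rw [sum_comm, mul_comm, ← smul_eq_mul, ← sum_const]
    refine sum_congr rfl fun M hM => ?_
    exact ((mem_MM.1 hM).1.1).symm
  have hstep : ∀ q ∈ T, ∑ M ∈ MM T (n + 2), M q = ∑ M ∈ MM T n, M q + (MM T n).card +
      (if tau q = q then 1 else 0) * (MM T (n + 1)).card := by
    intro q hq
    by_cases h : tau q = q
    · have h1 := sum_shift hT hq (n + 1)
      have h2 := sum_shift hT hq n
      rw [if_pos h, sum_add_distrib, sum_const, smul_eq_mul, mul_one] at h1 h2
      rw [show n + 2 = n + 1 + 1 by ring, h1, h2, if_pos h, one_mul]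
    · have h1 := sum_shift hT hq n
      rw [if_neg h, sum_add_distrib, sum_const, smul_eq_mul, mul_one] at h1
      rw [h1, if_neg h, zero_mul, add_zero]
  rw [hsum (n + 2), sum_congr rfl hstep, sum_add_distrib, sum_add_distrib, ← hsum n, sum_const,
    ← sum_mul, card_filter, smul_eq_mul]
  ring

theorem card_S (m : ℕ) : (S m).card = (m + 1) ^ 2 + m ^ 2 := by
  rw [S, card_union_of_disjoint]
  · simp [card_product]; ring
  · rw [disjoint_left]
    rintro ⟨⟨a, b⟩, e⟩ h1 h2
    simp at h1 h2
    rw [h1.2] at h2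
    exact Bool.noConfusion h2.2

theorem card_fix (m : ℕ) : ((S m).filter fun q => tau q = q).card = 2 * m + 1 := by
  have h : ((S m).filter fun q => tau q = q) =
      (range (m + 1)).image (fun a => (((a, a), false) : Q)) ∪
        (Icc 1 m).image (fun a => (((a, a), true) : Q)) := by
    ext ⟨⟨a, b⟩, e⟩
    rw [mem_filter, mem_S]
    simp only [tau, mem_union, mem_image, mem_range, mem_Icc, Prod.mk.injEq]
    constructor
    · rintro ⟨⟨h1, h2, h3⟩, ⟨h4, _⟩, _⟩
      cases e
      · left
        exact ⟨a, by omega, ⟨rfl, by omega⟩, rfl⟩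
      · right
        exact ⟨a, ⟨(h3 rfl).1, h1⟩, ⟨rfl, by omega⟩, rfl⟩
    · rintro (⟨x, hx, ⟨rfl, rfl⟩, rfl⟩ | ⟨x, hx, ⟨rfl, rfl⟩, rfl⟩)
      · refine ⟨⟨by omega, by omega, fun h => Bool.noConfusion h⟩, ⟨rfl, rfl⟩, trivial⟩
      · exact ⟨⟨hx.2, hx.2, fun _ => ⟨hx.1, hx.1⟩⟩, ⟨rfl, rfl⟩, trivial⟩
  rw [h, card_union_of_disjoint, card_image_of_injective, card_image_of_injective]
  · simp; ring
  · intro a b hab
    simpa using hab
  · intro a b hab
    simpa using hab
  · rw [disjoint_left]
    intro q h1 h2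
    rw [mem_image] at h1 h2
    obtain ⟨a, _, rfl⟩ := h1
    obtain ⟨b, _, hb⟩ := h2
    have := congrArg Prod.snd hb
    simp at this

/-- the number `a_n(m)` -/
def cc (n m : ℕ) : ℕ := (MM (S m) n).card

theorem cc_zero (m : ℕ) : cc 0 m = 1 := card_MM_zero _

theorem cc_one (m : ℕ) : cc 1 m = 2 * m + 1 := by
  rw [cc, card_MM_one fun q hq => tau_mem_S hq, card_fix]

theorem cc_rec (n m : ℕ) : (n + 2) * cc (n + 2) m = (2 * m + 1) * cc (n + 1) m +
    ((m + 1) ^ 2 + m ^ 2 + n) * cc n m := by
  rw [cc, card_MM_rec fun q hq => tau_mem_S hq, card_fix, card_S]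
  rfl

end Pool.Agent.X17.BInv
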