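import Pool.Agent.X17.BInv.Rec

set_option autoImplicit false

/-!
# Generating functions
-/

namespace Pool.Agent.X17.BInv

open Finset PowerSeries

/-- `A_n = ∑_m a_n(m) x^m` -/
noncomputable def A (n : ℕ) : ℚ⟦X⟧ := PowerSeries.mk fun m => (cc n m : ℚ)

/-- derivative -/
noncomputable abbrev D : ℚ⟦X⟧ → ℚ⟦X⟧ := fun f => PowerSeries.derivative ℚ f

theorem mk_choose_mul (n : ℕ) :
    (PowerSeries.mk fun k => ((n + k).choose n : ℚ)) * (1 - X) ^ (n + 1) = 1 := by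
  rw [← PowerSeries.mk_one_pow_eq_mk_choose_add ℚ n, ← mul_pow,
    PowerSeries.mk_one_mul_one_sub_eq_one, one_pow]

theorem A_eq (s : Bool) (n : ℕ) :
    A n = (∑ w ∈ Inv n, (X : ℚ⟦X⟧) ^ (des s w)) *
      (PowerSeries.mk fun k => ((n + k).choose n : ℚ)) := by
  ext m
  rw [sum_mul, map_sum, A, coeff_mk, cc, ← main_identity s n m]
  push_cast
  refine sum_congr rfl fun w _ => ?_
  rw [coeff_X_pow_mul']
  by_cases h : des s w ≤ m
  · rw [if_pos h, coeff_mk, show n + (m - des s w) = m + n - des s w by omega]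
  · have h1 := dcard_le (Dw s w) n
    rw [dcard_Dw] at h1
    rw [if_neg h, Nat.choose_eq_zero_of_lt (by omega)]
    simp

/-- the numerator -/
noncomputable def J (n : ℕ) : ℚ⟦X⟧ := (1 - X) ^ (n + 1) * A n

theorem J_eq (s : Bool) (n : ℕ) : J n = ∑ w ∈ Inv n, (X : ℚ⟦X⟧) ^ (des s w) := by
  rw [J, A_eq s, mul_comm, mul_assoc, mk_choose_mul, mul_one]

theorem J_zero : J 0 = 1 := by
  have h : A 0 = PowerSeries.mk 1 := by
    ext m
    simp [A, cc_zero]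
  rw [J, h, zero_add, pow_one, mul_comm, PowerSeries.mk_one_mul_one_sub_eq_one]

theorem coeff_theta (f : ℚ⟦X⟧) (m : ℕ) : coeff m (X * D f) = m * coeff m f := by
  cases m with
  | zero => simp
  | succ m =>
    rw [coeff_succ_X_mul, coeff_derivative]
    push_cast
    ring

theorem A_one : A 1 = 2 * (X * D (A 0)) + A 0 := by
  ext m
  have h2 : (2 : ℚ⟦X⟧) = C (2 : ℚ) := (map_ofNat C 2).symm
  rw [map_add, h2, coeff_C_mul, coeff_theta]
  simp [A, cc_zero, cc_one]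

theorem A_rec (n : ℕ) : ((n : ℚ⟦X⟧) + 2) * A (n + 2) = 2 * (X * D (A (n + 1))) + A (n + 1) +
    (2 * (X * D (X * D (A n))) + 2 * (X * D (A n)) + ((n : ℚ⟦X⟧) + 1) * A n) := by
  ext m
  have h2 : ∀ f : ℚ⟦X⟧, coeff m (2 * f) = 2 * coeff m f := fun f => by
    rw [show (2 : ℚ⟦X⟧) = C (2 : ℚ) from (map_ofNat C 2).symm, coeff_C_mul]
  have hn2 : ∀ f : ℚ⟦X⟧, coeff m (((n : ℚ⟦X⟧) + 2) * f) = ((n : ℚ) + 2) * coeff m f := fun f => by
    rw [show ((n : ℚ⟦X⟧) + 2) = C ((n : ℚ) + 2) by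
      rw [map_add, map_natCast, map_ofNat], coeff_C_mul]
  have hn1 : ∀ f : ℚ⟦X⟧, coeff m (((n : ℚ⟦X⟧) + 1) * f) = ((n : ℚ) + 1) * coeff m f := fun f => by
    rw [show ((n : ℚ⟦X⟧) + 1) = C ((n : ℚ) + 1) by
      rw [map_add, map_natCast, map_one], coeff_C_mul]
  rw [hn2]
  simp only [map_add]
  rw [hn1]
  simp only [h2, coeff_theta]
  have h := cc_rec n m
  have h' : ((n : ℚ) + 2) * (cc (n + 2) m : ℚ) = (2 * m + 1) * cc (n + 1) m +
    ((m + 1) ^ 2 + m ^ 2 + n) * cc n m := by exact_mod_cast h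
  simp only [A, coeff_mk]
  linear_combination h'

theorem D_mul (f g : ℚ⟦X⟧) : D (f * g) = f * D g + g * D f := by
  simp [D, Derivation.leibniz]

theorem D_one_sub_pow (k : ℕ) : (1 - X) * D ((1 - X : ℚ⟦X⟧) ^ k) = -(k : ℚ⟦X⟧) * (1 - X) ^ k := by
  induction k with
  | zero => simp
  | succ k ih =>
    rw [pow_succ, D_mul]
    have h : D (1 - X : ℚ⟦X⟧) = -1 := by simp [D]
    rw [h]
    push_cast
    linear_combination (1 - X) * ih

/-- relation between `D A` and `D J` -/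
theorem DJ (k : ℕ) (f g : ℚ⟦X⟧) (h : g = (1 - X) ^ k * f) :
    (1 - X) ^ (k + 1) * D f = (1 - X) * D g + (k : ℚ⟦X⟧) * g := by
  rw [h, D_mul, pow_succ]
  linear_combination -f * D_one_sub_pow k

/-- the auxiliary series `K_n` -/
noncomputable def K (n : ℕ) (f : ℚ⟦X⟧) : ℚ⟦X⟧ := (1 - X) * (X * D f) + ((n : ℚ⟦X⟧) + 1) * X * f

/-- first operator -/
noncomputable def T1 (n : ℕ) (f : ℚ⟦X⟧) : ℚ⟦X⟧ :=
  2 * (1 - X) * (X * D f) + (1 + (2 * (n : ℚ⟦X⟧) + 3) * X) * f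

/-- second operator -/
noncomputable def T2 (n : ℕ) (f : ℚ⟦X⟧) : ℚ⟦X⟧ :=
  2 * (1 - X) * (X * D (K n f)) + (2 * ((n : ℚ⟦X⟧) + 2) * X + 2 * (1 - X)) * K n f +
    ((n : ℚ⟦X⟧) + 1) * (1 - X) ^ 2 * f

theorem J_one : J 1 = 1 + X := by
  have h0 : J 0 = (1 - X) ^ 1 * A 0 := by rw [J, zero_add]
  have h1 := DJ 1 (A 0) (J 0) h0
  have h2 : D (J 0) = 0 := by rw [J_zero]; simp [D]
  rw [h2, J_zero] at h1
  rw [J_zero] at h0
  rw [J, A_one]
  have e : (1 + 1 : ℕ) = 2 := rfl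
  rw [e] at h1 ⊢
  push_cast at h1
  linear_combination 2 * X * h1 - (1 - X) * h0

theorem J_rec (n : ℕ) : ((n : ℚ⟦X⟧) + 2) * J (n + 2) = T1 n (J (n + 1)) + T2 n (J n) := by
  have h1 := DJ (n + 2) (A (n + 1)) (J (n + 1)) rfl
  have h2 := DJ (n + 1) (A n) (J n) rfl
  have hK : K n (J n) = (1 - X) ^ (n + 2) * (X * D (A n)) := by
    rw [K]
    push_cast at h2
    linear_combination -X * h2
  have h3 := DJ (n + 2) (X * D (A n)) (K n (J n)) hK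
  have h4 : J (n + 1) = (1 - X) ^ (n + 2) * A (n + 1) := rfl
  have h5 : J n = (1 - X) ^ (n + 1) * A n := rfl
  rw [T1, T2, J]
  have h6 := A_rec n
  have e3 : (1 - X : ℚ⟦X⟧) ^ (n + 2 + 1) = (1 - X) ^ (n + 1) * (1 - X) ^ 2 := by ring
  have e2 : (1 - X : ℚ⟦X⟧) ^ (n + 2) = (1 - X) ^ (n + 1) * (1 - X) := by ring
  push_cast at h1 h2 h3
  rw [e3] at h1 h3 ⊢
  rw [e2] at hK h4
  linear_combination (1 - X) ^ (n + 1) * (1 - X) ^ 2 * h6 + 2 * X * h1 + 2 * X * h3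
    - (1 - X) * h4 - 2 * (1 - X) * hK - ((n : ℚ⟦X⟧) + 1) * (1 - X) ^ 2 * h5

end Pool.Agent.X17.BInv
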